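import Pool.Agent.H.MP_ffe2f0_al.NDefs

/-! Module NAct: the action of the permutations. -/

open Polynomial Matrix

namespace NoetherAn

variable (k : Type*) [Field k] (n : ℕ)

theorem permAct_vr (σ : Equiv.Perm (Fin n)) (i : Fin n) :
    permAct k n σ (vr k n i) = vr k n (σ i) := by
  unfold permAct vr
  rw [IsFractionRing.algEquivOfAlgEquiv_algebraMap, MvPolynomial.renameEquiv_apply,
    MvPolynomial.rename_X]

/-- two `k`-automorphisms which agree on the variables are equal -/
theorem algHom_ext_vr {E : Type*} [Field E] [Algebra k E] (f g : RatField k n →ₐ[k] E)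
    (h : ∀ i, f (vr k n i) = g (vr k n i)) : f = g := by
  apply IsLocalization.algHom_ext (nonZeroDivisors (MvPolynomial (Fin n) k))
  apply MvPolynomial.algHom_ext
  intro i
  exact h i

theorem adjoin_vr : IntermediateField.adjoin k (Set.range (vr k n)) = ⊤ := by
  rw [eq_top_iff]
  intro f _
  obtain ⟨a, b, -, rfl⟩ := IsFractionRing.div_surjective (MvPolynomial (Fin n) k) f
  have key : ∀ a : MvPolynomial (Fin n) k, algebraMap (MvPolynomial (Fin n) k) (RatField k n) a ∈
      IntermediateField.adjoin k (Set.range (vr k n)) := by
    intro a
    induction a using MvPolynomial.induction_on with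
    | C r =>
      have : algebraMap (MvPolynomial (Fin n) k) (RatField k n) (MvPolynomial.C r) =
          algebraMap k (RatField k n) r := by
        rw [IsScalarTower.algebraMap_apply k (MvPolynomial (Fin n) k) (RatField k n)]
        rfl
      rw [this]
      exact IntermediateField.algebraMap_mem _ r
    | add p q hp hq => rw [map_add]; exact add_mem hp hq
    | mul_X p i hp =>
      rw [map_mul]
      exact mul_mem hp (IntermediateField.subset_adjoin k _ ⟨i, rfl⟩)
  exact div_mem (key a) (key b)

/-- the variables form a transcendence basis -/
theorem vr_isTranscendenceBasis : IsTranscendenceBasis k (vr k n) := by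
  have : Algebra.IsAlgebraic (MvPolynomial (Fin n) k) (RatField k n) :=
    IsLocalization.isAlgebraic _ (nonZeroDivisors (MvPolynomial (Fin n) k))
  have h := IsTranscendenceBasis.algebraMap_comp (A := RatField k n)
    (IsTranscendenceBasis.mvPolynomial (Fin n) k)
  exact h

end NoetherAn
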