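import Pool.Agent.H.MP_ffe2f0_al.NDefs

/-! Module NComm: the commutator identity and its first consequences.
-/

open Polynomial Matrix

namespace NoetherAn

variable {L : Type*} [Field L] {n : ℕ}

theorem commutator {x : Fin n → L} (hx : Function.Injective x) :
    diagonal x * cm x - cm x * diagonal x = Matrix.of (fun _ _ => (1 : L)) - 1 := by
  ext i j
  rw [Matrix.sub_apply, Matrix.sub_apply, Matrix.diagonal_mul, Matrix.mul_diagonal,
    Matrix.of_apply, Matrix.one_apply]
  unfold cm
  rw [Matrix.of_apply]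
  by_cases h : i = j
  · subst h
    simp
  · have h1 : x i - x j ≠ 0 := sub_ne_zero.mpr (fun h2 => h (hx h2))
    rw [if_neg h, sub_zero]
    field_simp

theorem cm_transpose (x : Fin n → L) : (cm x)ᵀ = - cm x := by
  ext i j
  rw [Matrix.transpose_apply, Matrix.neg_apply]
  unfold cm
  rw [Matrix.of_apply, Matrix.of_apply, ← inv_neg, neg_sub]

/-- the sum of all entries -/
def sumEnt (M : Matrix (Fin n) (Fin n) L) : L := ∑ i, ∑ j, M i j

theorem sumEnt_add (A B : Matrix (Fin n) (Fin n) L) : sumEnt (A + B) = sumEnt A + sumEnt B := by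
  unfold sumEnt
  simp only [Matrix.add_apply, Finset.sum_add_distrib]

theorem sumEnt_neg (A : Matrix (Fin n) (Fin n) L) : sumEnt (-A) = - sumEnt A := by
  unfold sumEnt
  simp only [Matrix.neg_apply, Finset.sum_neg_distrib]

theorem sumEnt_sub (A B : Matrix (Fin n) (Fin n) L) : sumEnt (A - B) = sumEnt A - sumEnt B := by
  rw [sub_eq_add_neg, sumEnt_add, sumEnt_neg, ← sub_eq_add_neg]

theorem sumEnt_zero : sumEnt (0 : Matrix (Fin n) (Fin n) L) = 0 := by
  unfold sumEnt
  simp

theorem sumEnt_sum {ι : Type*} (s : Finset ι) (f : ι → Matrix (Fin n) (Fin n) L) :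
    sumEnt (∑ a ∈ s, f a) = ∑ a ∈ s, sumEnt (f a) := by
  classical
  induction s using Finset.induction_on with
  | empty => simp [sumEnt_zero]
  | insert a s ha ih => rw [Finset.sum_insert ha, Finset.sum_insert ha, sumEnt_add, ih]

theorem sumEnt_nsmul (m : ℕ) (A : Matrix (Fin n) (Fin n) L) :
    sumEnt (m • A) = (m : L) * sumEnt A := by
  induction m with
  | zero => simp [sumEnt_zero]
  | succ m ih => rw [succ_nsmul, sumEnt_add, ih]; push_cast; ring

theorem sumEnt_transpose (A : Matrix (Fin n) (Fin n) L) : sumEnt Aᵀ = sumEnt A := by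
  unfold sumEnt
  rw [Finset.sum_comm]
  rfl

theorem sumEnt_mul_ones_mul (A B : Matrix (Fin n) (Fin n) L) :
    sumEnt (A * (Matrix.of (fun _ _ => (1 : L)) : Matrix (Fin n) (Fin n) L) * B)
      = sumEnt A * sumEnt B := by
  unfold sumEnt
  have h1 : ∀ i j, (A * (Matrix.of (fun _ _ => (1 : L)) : Matrix (Fin n) (Fin n) L) * B) i j
      = (∑ k, A i k) * ∑ l, B l j := by
    intro i j
    rw [Matrix.mul_apply, Finset.mul_sum]
    refine Finset.sum_congr rfl fun l _ => ?_
    rw [Matrix.mul_apply]
    congr 1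
    refine Finset.sum_congr rfl fun k _ => ?_
    rw [Matrix.of_apply, mul_one]
  simp only [h1]
  rw [Finset.sum_mul]
  refine Finset.sum_congr rfl fun i _ => ?_
  rw [← Finset.mul_sum]
  congr 1
  rw [Finset.sum_comm]

theorem trace_ones_mul (A : Matrix (Fin n) (Fin n) L) :
    trace (Matrix.of (fun _ _ => (1 : L)) * A) = sumEnt A := by
  unfold sumEnt Matrix.trace
  rw [Finset.sum_comm]
  refine Finset.sum_congr rfl fun j _ => ?_
  rw [Matrix.diag_apply, Matrix.mul_apply]
  refine Finset.sum_congr rfl fun i _ => ?_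
  rw [Matrix.of_apply, one_mul]

theorem mom_eq_sumEnt (x : Fin n → L) (a : ℕ) : mom x a = sumEnt (cm x ^ a) := rfl

theorem cmom_eq_sumEnt (x : Fin n → L) (a : ℕ) :
    cmom x a = sumEnt (diagonal x * cm x ^ a) := by
  unfold cmom sumEnt
  refine Finset.sum_congr rfl fun i _ => ?_
  refine Finset.sum_congr rfl fun j _ => ?_
  rw [Matrix.diagonal_mul]

theorem mom_eq_trace {x : Fin n → L} (hx : Function.Injective x) (a : ℕ) :
    mom x a = trace (cm x ^ a) := by
  have h1 : trace ((diagonal x * cm x - cm x * diagonal x) * cm x ^ a) = 0 := by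
    rw [Matrix.sub_mul, Matrix.trace_sub]
    have h2 : trace (cm x * diagonal x * cm x ^ a) = trace (diagonal x * cm x * cm x ^ a) := by
      rw [Matrix.mul_assoc, Matrix.trace_mul_comm, Matrix.mul_assoc, Matrix.mul_assoc,
        ← pow_succ, ← pow_succ']
    rw [h2, sub_self]
  rw [commutator hx, Matrix.sub_mul, Matrix.one_mul, Matrix.trace_sub, trace_ones_mul] at h1
  rw [mom_eq_sumEnt]
  exact sub_eq_zero.mp h1

theorem cm_pow_transpose (x : Fin n → L) (a : ℕ) : (cm x ^ a)ᵀ = (- cm x) ^ a := by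
  rw [Matrix.transpose_pow, cm_transpose]

theorem mom_odd [CharZero L] (x : Fin n → L) {a : ℕ} (ha : Odd a) : mom x a = 0 := by
  have h1 : sumEnt (cm x ^ a) = - sumEnt (cm x ^ a) := by
    conv_lhs => rw [← sumEnt_transpose, cm_pow_transpose, ha.neg_pow, sumEnt_neg]
  rw [mom_eq_sumEnt]
  exact self_eq_neg.mp h1

theorem charpoly_neg_coeff (M : Matrix (Fin n) (Fin n) L) (j : ℕ) :
    (-M).charpoly.coeff j = (-1) ^ n * ((-1) ^ j * M.charpoly.coeff j) := by
  have h1 : (-M).charpoly = (-1) ^ n * M.charpoly.comp (-X) := by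
    unfold Matrix.charpoly
    have h2 : (det (charmatrix M)).comp (-X) = det ((charmatrix M).map (fun p => p.comp (-X))) := by
      have := (Polynomial.compRingHom (-X : L[X])).map_det (charmatrix M)
      rw [Polynomial.coe_compRingHom_apply] at this
      rw [this]
      rfl
    rw [h2]
    have h3 : charmatrix (-M) = - (charmatrix M).map (fun p => p.comp (-X)) := by
      ext1 i j
      rw [Matrix.neg_apply, Matrix.map_apply]
      by_cases h : i = j
      · subst h
        rw [charmatrix_apply_eq, charmatrix_apply_eq]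
        simp
        ring
      · rw [charmatrix_apply_ne _ _ _ h, charmatrix_apply_ne _ _ _ h]
        simp
    rw [h3, Matrix.det_neg, Fintype.card_fin]
  rw [h1]
  have h4 : ((-1 : L[X]) ^ n) = C ((-1) ^ n) := by simp
  rw [h4, Polynomial.coeff_C_mul]
  congr 1
  have h5 : M.charpoly.comp (-X) = M.charpoly.comp (C (-1) * X) := by simp
  rw [h5, Polynomial.comp_C_mul_X_coeff, mul_comm]

theorem charpoly_coeff_odd [CharZero L] (x : Fin n → L) {j : ℕ} (hj : Odd (n + j)) :
    (cm x).charpoly.coeff j = 0 := by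
  have h1 := charpoly_neg_coeff (cm x) j
  rw [← cm_transpose, Matrix.charpoly_transpose, ← mul_assoc, ← pow_add, hj.neg_one_pow,
    neg_one_mul] at h1
  exact self_eq_neg.mp h1

theorem cm_pow_mul_diagonal {x : Fin n → L} (hx : Function.Injective x) (j : ℕ) :
    cm x ^ j * diagonal x = diagonal x * cm x ^ j
      - ∑ a ∈ Finset.range j, cm x ^ a * Matrix.of (fun _ _ => (1 : L)) * cm x ^ (j - 1 - a)
      + j • cm x ^ (j - 1) := by
  have hc : cm x * diagonal x = diagonal x * cm x - Matrix.of (fun _ _ => (1 : L)) + 1 := by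
    have := commutator hx
    rw [sub_eq_iff_eq_add] at this
    rw [this]
    abel
  induction j with
  | zero => simp
  | succ j ih =>
    rw [pow_succ', Matrix.mul_assoc, ih, Matrix.mul_add, Matrix.mul_sub, ← Matrix.mul_assoc, hc,
      Finset.mul_sum, Finset.sum_range_succ', Matrix.add_mul, Matrix.sub_mul, Matrix.one_mul,
      Matrix.mul_assoc (diagonal x)]
    have h1 : ∑ i ∈ Finset.range j, cm x * (cm x ^ i * Matrix.of (fun _ _ => (1 : L)) *
        cm x ^ (j - 1 - i)) = ∑ k ∈ Finset.range j, cm x ^ (k + 1) *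
          Matrix.of (fun _ _ => (1 : L)) * cm x ^ (j + 1 - 1 - (k + 1)) := by
      refine Finset.sum_congr rfl fun i _ => ?_
      have h2 : j + 1 - 1 - (i + 1) = j - 1 - i := by omega
      rw [h2, pow_succ' (cm x) i]
      simp only [Matrix.mul_assoc]
    have h2 : cm x * j • cm x ^ (j - 1) = j • cm x ^ j := by
      rw [mul_smul_comm, ← pow_succ']
      rcases Nat.eq_zero_or_pos j with h | h
      · subst h
        simp
      · rw [Nat.sub_add_cancel h]
    have h3 : j + 1 - 1 - 0 = j := by omega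
    have h4 : j + 1 - 1 = j := by omega
    rw [h1, h2, h3, h4, pow_zero, Matrix.one_mul, succ_nsmul, ← pow_succ']
    abel

/-- `1ᵀ S^j X S^k 1` -/
theorem mixed_moment {x : Fin n → L} (hx : Function.Injective x) (j k : ℕ) :
    ∑ i, ∑ i', (cm x ^ j * diagonal x * cm x ^ k) i i' =
      cmom x (j + k) - ∑ a ∈ Finset.range j, mom x a * mom x (j - 1 - a + k)
        + j * mom x (j - 1 + k) := by
  change sumEnt (cm x ^ j * diagonal x * cm x ^ k) = _
  rw [cm_pow_mul_diagonal hx, Matrix.add_mul, Matrix.sub_mul, Finset.sum_mul, sumEnt_add,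
    sumEnt_sub, sumEnt_sum, Matrix.mul_assoc, ← pow_add, cmom_eq_sumEnt, smul_mul_assoc,
    ← pow_add, sumEnt_nsmul, mom_eq_sumEnt]
  congr 2
  refine Finset.sum_congr rfl fun a _ => ?_
  rw [Matrix.mul_assoc, ← pow_add, sumEnt_mul_ones_mul]
  rfl

theorem two_mul_cmom_odd {x : Fin n → L} (hx : Function.Injective x) {l : ℕ} (hl : Odd l) :
    2 * cmom x l = ∑ a ∈ Finset.range l, mom x a * mom x (l - 1 - a) - l * mom x (l - 1) := by
  have h1 : cmom x l = - sumEnt (cm x ^ l * diagonal x) := by
    rw [cmom_eq_sumEnt, ← sumEnt_transpose, Matrix.transpose_mul, cm_pow_transpose,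
      hl.neg_pow, Matrix.diagonal_transpose, Matrix.neg_mul, sumEnt_neg]
  have h2 := mixed_moment hx l 0
  rw [pow_zero, Matrix.mul_one] at h2
  change sumEnt (cm x ^ l * diagonal x) = _ at h2
  simp only [add_zero] at h2
  rw [h2] at h1
  linear_combination h1

end NoetherAn
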