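import Pool.Agent.H.MP_ffe2f0_al.NDefs

/-! Module NNewton: Newton identities for matrices.

PROOF. π = charpoly M (monic of degree n), π_i its coefficients. Put B(z) = ∑_{i=1}^n π_i ∑_{a+b=i-1} z^a M^b, so that (z - M) B(z) = π(z) - π(M) = π(z) (geometric sum, Cayley-Hamilton). Claim: ∑_{i≥1} π_i ∑_{a+b=i-1} z^a trace(M^b) = π'(z) as polynomials. It suffices to check it at the infinitely many z0 ∈ L with π(z0) ≠ 0 (L is infinite): there z0 - M is invertible, B(z0) = π(z0) (z0 - M)⁻¹, and π(z0 + h) = det(z0 + h - M) = det(z0 - M) det(1 + h (z0-M)⁻¹), so π'(z0) = π(z0) trace((z0-M)⁻¹) = trace B(z0) by Matrix.derivative_det_one_add_X_smul. Comparing the coefficients of z^(n-1-k): ∑_{i ≥ n-k} π_i trace(M^(i-1-(n-1-k))) = (n-k) π_{n-k}; put b = i - (n-k), 0 ≤ b ≤ k.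
-/

open Polynomial Matrix

namespace NoetherAn

variable {L : Type*} [Field L] {n : ℕ}

/-- the derivative of the characteristic polynomial at a point which is not an eigenvalue -/
theorem newton_aux (M : Matrix (Fin n) (Fin n) L) (z : L) (hz : M.charpoly.eval z ≠ 0) :
    (derivative M.charpoly).eval z =
      M.charpoly.eval z * trace ((scalar (Fin n) z - M)⁻¹) := by
  have hA : (scalar (Fin n) z - M).det = M.charpoly.eval z := (eval_charpoly M z).symm
  set A := scalar (Fin n) z - M with hAdef
  have hu : IsUnit A.det := by rw [hA]; exact hz.isUnit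
  have h1 : M.charpoly.comp (X + C z) = det (A.map C + (X : L[X]) • (1 : Matrix (Fin n) (Fin n) L[X])) := by
    have h2 : M.charpoly.comp (X + C z) = (compRingHom (X + C z : L[X])) M.charpoly := rfl
    rw [h2, Matrix.charpoly, RingHom.map_det]
    congr 1
    ext i j : 1
    by_cases hij : i = j
    · subst hij
      simp [hAdef]
      ring
    · simp [hAdef, hij]
  have h3 : M.charpoly.comp (X + C z) =
      C A.det * det (1 + (X : L[X]) • (A⁻¹).map C) := by
    rw [h1]
    have h4 : C A.det = det (A.map (C : L →+* L[X])) := by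
      rw [RingHom.map_det]; rfl
    rw [h4, ← det_mul]
    congr 1
    rw [mul_add, mul_one, mul_smul_comm]
    congr 2
    have h5 : A.map (C : L →+* L[X]) * (A⁻¹).map (C : L →+* L[X]) = (A * A⁻¹).map (C : L →+* L[X]) := by
      rw [Matrix.map_mul]
    rw [h5, mul_nonsing_inv _ hu]
    simp
  have h6 : (derivative (M.charpoly.comp (X + C z))).eval 0 = (derivative M.charpoly).eval z := by
    rw [derivative_comp]
    simp
  rw [← h6, h3, derivative_C_mul, eval_mul, eval_C, derivative_det_one_add_X_smul, hA]

/-- the polynomial `π(z) - π(M)` divided by `z - M`, traced -/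
theorem newton_poly [Infinite L] (M : Matrix (Fin n) (Fin n) L) :
    (∑ i ∈ Finset.range (n + 1), ∑ a ∈ Finset.range i,
      (C (M.charpoly.coeff i * trace (M ^ (i - 1 - a))) * X ^ a : L[X])) =
      derivative M.charpoly := by
  classical
  have hinf : Set.Infinite {z : L | M.charpoly.eval z ≠ 0} := by
    have h1 : Set.Finite {z : L | M.charpoly.eval z = 0} := by
      have := M.charpoly.roots.toFinset.finite_toSet
      refine this.subset ?_
      intro z hz
      simp only [Finset.mem_coe, Multiset.mem_toFinset]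
      rw [mem_roots (Matrix.charpoly_monic M).ne_zero]
      exact hz
    exact h1.infinite_compl
  refine Polynomial.eq_of_infinite_eval_eq _ _ (hinf.mono ?_)
  intro z hz
  replace hz : M.charpoly.eval z ≠ 0 := hz
  change eval z _ = eval z _
  rw [newton_aux M z hz]
  set A := scalar (Fin n) z - M with hAdef
  have hA : A.det = M.charpoly.eval z := (eval_charpoly M z).symm
  have hu : IsUnit A.det := by rw [hA]; exact hz.isUnit
  have hdeg : M.charpoly.natDegree = n := by
    rcases n with _ | n
    · simp
    · simp [Matrix.charpoly_natDegree_eq_dim]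
  set B : Matrix (Fin n) (Fin n) L := ∑ i ∈ Finset.range (n + 1), M.charpoly.coeff i •
    ∑ a ∈ Finset.range i, (scalar (Fin n) z) ^ a * M ^ (i - 1 - a) with hB
  have hAB : A * B = M.charpoly.eval z • (1 : Matrix (Fin n) (Fin n) L) := by
    have hc : Commute (scalar (Fin n) z) M := by
      exact scalar_commute z (fun r' => Commute.all _ _) M
    rw [hB, Finset.mul_sum]
    have h1 : ∀ i ∈ Finset.range (n + 1), A * (M.charpoly.coeff i •
        ∑ a ∈ Finset.range i, (scalar (Fin n) z) ^ a * M ^ (i - 1 - a)) =
        M.charpoly.coeff i • ((scalar (Fin n) z) ^ i - M ^ i) := by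
      intro i _
      rw [mul_smul_comm, hAdef, hc.mul_geom_sum₂]
    rw [Finset.sum_congr rfl h1]
    simp only [smul_sub, Finset.sum_sub_distrib]
    have h2 : ∑ i ∈ Finset.range (n + 1), M.charpoly.coeff i • M ^ i = 0 := by
      have := Matrix.aeval_self_charpoly M
      rw [aeval_eq_sum_range, hdeg] at this
      exact this
    rw [h2, sub_zero, eval_eq_sum_range, hdeg, Finset.sum_smul]
    refine Finset.sum_congr rfl ?_
    intro i _
    rw [mul_smul, ← map_pow]
    congr 1
    ext a b
    simp [Matrix.one_apply, Matrix.diagonal_apply]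
  have hB2 : B = M.charpoly.eval z • A⁻¹ := by
    have h1 : A⁻¹ * (A * B) = B := by
      rw [← mul_assoc, nonsing_inv_mul _ hu, one_mul]
    rw [← h1, hAB, mul_smul_comm, mul_one]
  have hB3 : trace B = M.charpoly.eval z * trace A⁻¹ := by
    rw [hB2, trace_smul, smul_eq_mul]
  rw [← hB3, hB]
  simp only [eval_finsetSum, eval_mul, eval_C, eval_pow, eval_X, trace_sum, trace_smul,
    smul_eq_mul, Finset.mul_sum]
  refine Finset.sum_congr rfl ?_
  intro i _
  refine Finset.sum_congr rfl ?_
  intro a _
  have h7 : (scalar (Fin n) z) ^ a * M ^ (i - 1 - a) = z ^ a • M ^ (i - 1 - a) := by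
    rw [← map_pow]
    ext x y
    simp
  rw [h7, trace_smul, smul_eq_mul]
  ring

theorem newton' [Infinite L] (M : Matrix (Fin n) (Fin n) L) {k : ℕ} (hk : k < n) :
    ∑ b ∈ Finset.range (k + 1), M.charpoly.coeff (n - k + b) * trace (M ^ b) =
      ((n - k : ℕ) : L) * M.charpoly.coeff (n - k) := by
  have h := congrArg (fun p : L[X] => p.coeff (n - 1 - k)) (newton_poly M)
  rw [coeff_derivative] at h
  have e1 : n - 1 - k + 1 = n - k := by omega
  have e2 : ((n - 1 - k : ℕ) : L) + 1 = ((n - k : ℕ) : L) := by
    rw [← e1]; push_cast; ring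
  rw [e1, e2] at h
  rw [mul_comm ((n - k : ℕ) : L), ← h]
  simp only [finsetSum_coeff, coeff_C_mul, coeff_X_pow]
  have h1 : ∀ i ∈ Finset.range (n + 1),
      ∑ a ∈ Finset.range i, M.charpoly.coeff i * trace (M ^ (i - 1 - a)) *
        (if n - 1 - k = a then (1 : L) else 0) =
      if n - k ≤ i then M.charpoly.coeff i * trace (M ^ (i - (n - k))) else 0 := by
    intro i hi
    simp only [mul_ite, mul_one, mul_zero]
    rw [Finset.sum_ite_eq]
    simp only [Finset.mem_range]
    by_cases hh : n - k ≤ i
    · rw [if_pos (by omega), if_pos hh]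
      congr 3
      omega
    · rw [if_neg (by omega), if_neg hh]
  rw [Finset.sum_congr rfl h1, ← Finset.sum_filter]
  symm
  refine Finset.sum_bij' (fun i _ => i - (n - k)) (fun b _ => n - k + b) ?_ ?_ ?_ ?_ ?_
  · intro i hi
    simp only [Finset.mem_filter, Finset.mem_range] at hi ⊢
    omega
  · intro b hb
    simp only [Finset.mem_filter, Finset.mem_range] at hb ⊢
    omega
  · intro i hi
    simp only [Finset.mem_filter, Finset.mem_range] at hi ⊢
    omega
  · intro b hb
    simp only [Finset.mem_range] at hb ⊢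
    omega
  · intro i hi
    simp only [Finset.mem_filter, Finset.mem_range] at hi ⊢
    congr 2
    omega

theorem newton [CharZero L] (M : Matrix (Fin n) (Fin n) L) {k : ℕ} (hk : k < n) :
    ∑ b ∈ Finset.range (k + 1), M.charpoly.coeff (n - k + b) * trace (M ^ b) =
      ((n - k : ℕ) : L) * M.charpoly.coeff (n - k) :=
  newton' M hk

end NoetherAn
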