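import Pool.Agent.H.MP_ffe2f0_al.NDefs
import Pool.Agent.H.MP_ffe2f0_al.NComm
import Pool.Agent.H.MP_ffe2f0_al.NNewton

/-! Module NDelta: the square of the Krylov determinant.

PROOF. N = kry x, p_a = mom x a, π = charpoly (cm x), m = n/2. Nᵀ N has entries (-1)^j p_{j+k} (j,k < n), zero if j+k is odd (mom_odd). Reorder the indices 0..n-1 as the even ones 0,2,.. (there are n-m) followed by the odd ones 1,3,.. (m): (use an equivalence Fin (n-m) ⊕ Fin m ≃ Fin n and det_submatrix_equiv_self / det_fromBlocks_zero₂₁): det(N)^2 = det G0 * det G1 with G0 = (p_{2(j+k)})_{j,k<n-m}, G1 = (-p_{2(j+k)+2})_{j,k<m}. π has only coefficients π_{n-2m+2i} =: χ_i (charpoly_coeff_odd), χ_m = 1, n - 2m = n % 2.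
n = 2m even: Cayley-Hamilton: ∑_{i≤m} χ_i S^{2i} = 0, so ∑_i χ_i p_{2(j+i)} = 0. Hence G1 = - G0 * Cm with Cm the m x m companion matrix of χ (column k < m-1 is e_{k+1}, last column is -χ_i); det Cm = (-1)^m χ_0. So det G1 = (-1)^m (-1)^m χ_0 det G0 = χ_0 det G0, and det(N)^2 = χ_0 (det G0)^2, hnk x = det G0. (m = 0: n = 0 trivial.) Instead of the companion matrix: replace the first column of G0 ... : the matrix (p_{2(j+k)})_{j<m,1≤k≤m} (= -G1) has last column p_{2(j+m)} = -∑_{i<m} χ_i p_{2(j+i)}; all columns but the one i=0 cancel, so det(-G1) = det(columns 1..m-1, -χ_0 * column 0) = (-1)^(m-1) (-χ_0) det G0 = (-1)^m χ_0 det G0.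
n = 2m+1 odd: hnk x = det(p_{2(j+k)+2})_{j,k<m} = (-1)^m det G1. G0 is of size m+1; add to the last column the combination ∑_{i<m} χ_i * column i: the new last column is (∑_{i≤m} χ_i p_{2(j+i)})_j, which for j ≥ 1 is 1ᵀ S^{2j-1} (S χ(S²)) 1 = 0 by Cayley-Hamilton, and for j = 0 it is τ = ∑ χ_i p_{2i} = ∑_b π_{1+b} trace(S^b) = 1 * π_1 = χ_0 by newton with k = n-1 (odd b do not contribute). Expanding along the last column: det G0 = (-1)^m χ_0 det(p_{2(j+k)})_{1≤j≤m, k<m} = (-1)^m χ_0 hnk x. So det(N)^2 = (-1)^m χ_0 hnk * (-1)^m hnk = χ_0 hnk^2.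
-/

open Polynomial Matrix

namespace NoetherAn

/-! ### Hankel determinants -/

theorem ndelta_hankel {L : Type*} [Field L] {m : ℕ} (q χ : ℕ → L) (hχ : χ m = 1)
    (h : ∀ j, ∑ i ∈ Finset.range (m + 1), χ i * q (j + i) = 0) :
    Matrix.det (Matrix.of fun j k : Fin m => q ((j : ℕ) + k + 1)) =
      (-1) ^ m * χ 0 * Matrix.det (Matrix.of fun j k : Fin m => q ((j : ℕ) + k)) := by
  let D : Matrix (Fin (m + 1)) (Fin (m + 1)) L := Matrix.of fun j k =>
    if (j : ℕ) < m then q ((j : ℕ) + k) else if (k : ℕ) = 0 then 1 else 0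
  have hD1 : D.det = (-1) ^ m * Matrix.det (Matrix.of fun j k : Fin m => q ((j : ℕ) + k + 1)) := by
    rw [Matrix.det_succ_row D (Fin.last m), Finset.sum_eq_single (0 : Fin (m + 1))]
    · have h1 : D (Fin.last m) 0 = 1 := by simp [D]
      have h2 : D.submatrix (Fin.last m).succAbove (Fin.succAbove 0) =
          Matrix.of fun j k : Fin m => q ((j : ℕ) + k + 1) := by
        ext j k
        simp [D, Matrix.submatrix_apply, add_assoc]
      rw [h1, h2]
      simp
    · intro k _ hk
      have h1 : D (Fin.last m) k = 0 := by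
        simp [D, hk]
      rw [h1, mul_zero, zero_mul]
    · intro h
      exact absurd (Finset.mem_univ _) h
  have hD2 : D.det = χ 0 * Matrix.det (Matrix.of fun j k : Fin m => q ((j : ℕ) + k)) := by
    have h1 := Matrix.det_updateCol_sum D (Fin.last m) (fun i => χ i)
    simp only [Fin.val_last, hχ, one_smul] at h1
    rw [← h1]
    have hcol : ∀ j : Fin (m + 1), (D.updateCol (Fin.last m) fun k => ∑ i : Fin (m + 1),
        χ (i : ℕ) • D k i) j (Fin.last m) = if (j : ℕ) < m then 0 else χ 0 := by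
      intro j
      rw [Matrix.updateCol_self]
      by_cases hj : (j : ℕ) < m
      · rw [if_pos hj]
        have h2 : ∀ i : Fin (m + 1), χ (i : ℕ) • D j i = χ (i : ℕ) * q ((j : ℕ) + i) := by
          intro i
          simp [D, hj]
        rw [Finset.sum_congr rfl fun i _ => h2 i,
          Fin.sum_univ_eq_sum_range (fun i => χ i * q ((j : ℕ) + i)), h]
      · rw [if_neg hj, Finset.sum_eq_single (0 : Fin (m + 1))]
        · simp [D, hj]
        · intro i _ hi
          simp [D, hj, hi]
        · intro h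
          exact absurd (Finset.mem_univ _) h
    rw [Matrix.det_succ_column _ (Fin.last m), Finset.sum_eq_single (Fin.last m)]
    · rw [hcol, if_neg (by simp)]
      have h2 : (D.updateCol (Fin.last m) fun k => ∑ i : Fin (m + 1),
          χ (i : ℕ) • D k i).submatrix (Fin.last m).succAbove (Fin.last m).succAbove =
          Matrix.of fun j k : Fin m => q ((j : ℕ) + k) := by
        ext j k
        rw [Matrix.submatrix_apply, Fin.succAbove_last, Matrix.updateCol_ne
          (Fin.castSucc_lt_last k).ne]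
        simp [D]
      rw [h2]
      have h3 : ((-1 : L)) ^ (((Fin.last m : Fin (m + 1)) : ℕ) + ((Fin.last m : Fin (m + 1)) : ℕ)) =
          1 := by
        rw [← two_mul, pow_mul]
        simp
      rw [h3, one_mul]
    · intro j _ hj
      have : (j : ℕ) < m := by
        have h2 := j.2
        have h3 : (j : ℕ) ≠ m := fun h => hj (Fin.ext h)
        omega
      rw [hcol, if_pos this, mul_zero, zero_mul]
    · intro h
      exact absurd (Finset.mem_univ _) h
  have h3 : ((-1 : L)) ^ m * (-1) ^ m = 1 := by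
    rw [← mul_pow]
    simp
  calc Matrix.det (Matrix.of fun j k : Fin m => q ((j : ℕ) + k + 1))
      = ((-1) ^ m * (-1) ^ m) *
        Matrix.det (Matrix.of fun j k : Fin m => q ((j : ℕ) + k + 1)) := by rw [h3, one_mul]
    _ = (-1) ^ m * D.det := by rw [hD1]; ring
    _ = _ := by rw [hD2]; ring

theorem ndelta_hankel' {L : Type*} [Field L] {m : ℕ} (q χ : ℕ → L) (τ : L) (hχ : χ m = 1)
    (h0 : ∑ i ∈ Finset.range (m + 1), χ i * q i = τ)
    (h : ∀ j, 0 < j → ∑ i ∈ Finset.range (m + 1), χ i * q (j + i) = 0) :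
    Matrix.det (Matrix.of fun j k : Fin (m + 1) => q ((j : ℕ) + k)) =
      (-1) ^ m * τ * Matrix.det (Matrix.of fun j k : Fin m => q ((j : ℕ) + k + 1)) := by
  set D : Matrix (Fin (m + 1)) (Fin (m + 1)) L := Matrix.of fun j k => q ((j : ℕ) + k) with hD
  have h1 := Matrix.det_updateCol_sum D (Fin.last m) (fun i => χ i)
  simp only [Fin.val_last, hχ, one_smul] at h1
  rw [← h1]
  have hcol : ∀ j : Fin (m + 1), (D.updateCol (Fin.last m) fun k => ∑ i : Fin (m + 1),
      χ (i : ℕ) • D k i) j (Fin.last m) = if j = 0 then τ else 0 := by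
    intro j
    rw [Matrix.updateCol_self]
    have h2 : ∑ i : Fin (m + 1), χ (i : ℕ) • D j i =
        ∑ i ∈ Finset.range (m + 1), χ i * q ((j : ℕ) + i) := by
      rw [← Fin.sum_univ_eq_sum_range (fun i => χ i * q ((j : ℕ) + i))]
      rfl
    rw [h2]
    by_cases hj : j = 0
    · rw [if_pos hj, hj, ← h0]
      simp
    · rw [if_neg hj]
      exact h _ (Nat.pos_of_ne_zero fun h3 => hj (Fin.ext h3))
  rw [Matrix.det_succ_column _ (Fin.last m), Finset.sum_eq_single (0 : Fin (m + 1))]
  · rw [hcol, if_pos rfl]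
    have h2 : (D.updateCol (Fin.last m) fun k => ∑ i : Fin (m + 1),
        χ (i : ℕ) • D k i).submatrix (Fin.succAbove 0) (Fin.last m).succAbove =
        Matrix.of fun j k : Fin m => q ((j : ℕ) + k + 1) := by
      ext j k
      rw [Matrix.submatrix_apply, Fin.succAbove_last, Matrix.updateCol_ne
        (Fin.castSucc_lt_last k).ne]
      simp only [hD, Matrix.of_apply, Fin.zero_succAbove, Fin.val_succ, Fin.val_castSucc]
      congr 1
      ring
    rw [h2]
    simp
  · intro j _ hj
    rw [hcol, if_neg hj, mul_zero, zero_mul]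
  · intro h
    exact absurd (Finset.mem_univ _) h

theorem ndelta_sum_even {L : Type*} [AddCommMonoid L] (f : ℕ → L) (hf : ∀ l, Odd l → f l = 0)
    (m : ℕ) :
    ∑ l ∈ Finset.range (2 * m + 1), f l = ∑ i ∈ Finset.range (m + 1), f (2 * i) := by
  induction m with
  | zero => simp
  | succ m ih =>
    have h1 : 2 * (m + 1) + 1 = (2 * m + 1) + 1 + 1 := by ring
    rw [h1, Finset.sum_range_succ, Finset.sum_range_succ, ih, hf (2 * m + 1) ⟨m, rfl⟩, add_zero,
      Finset.sum_range_succ (fun i => f (2 * i)) (m + 1)]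
    congr 2

/-! ### the interleaving of even and odd indices -/

/-- even indices first, then the odd ones -/
def ndeltaFun (a b n : ℕ) (hn : n = a + b) (h1 : b ≤ a) (h2 : a ≤ b + 1) :
    Fin a ⊕ Fin b → Fin n :=
  Sum.elim (fun j => ⟨2 * j, by have := j.2; omega⟩) (fun j => ⟨2 * j + 1, by have := j.2; omega⟩)

theorem ndelta_bij (a b n : ℕ) (hn : n = a + b) (h1 : b ≤ a) (h2 : a ≤ b + 1) :
    Function.Bijective (ndeltaFun a b n hn h1 h2) := by
  rw [Fintype.bijective_iff_injective_and_card]
  constructor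
  · rintro (i | i) (j | j) h
    · have h3 : 2 * (i : ℕ) = 2 * j := congrArg Fin.val h
      exact congrArg Sum.inl (Fin.ext (by omega))
    · have h3 : 2 * (i : ℕ) = 2 * j + 1 := congrArg Fin.val h
      omega
    · have h3 : 2 * (i : ℕ) + 1 = 2 * j := congrArg Fin.val h
      omega
    · have h3 : 2 * (i : ℕ) + 1 = 2 * j + 1 := congrArg Fin.val h
      exact congrArg Sum.inr (Fin.ext (by omega))
  · simp [hn]

variable {L : Type*} [Field L] [CharZero L] {n : ℕ}

omit [CharZero L] in
theorem ndelta_gram (x : Fin n → L) (j k : Fin n) :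
    ((kry x)ᵀ * kry x) j k = (-1) ^ (j : ℕ) * mom x ((j : ℕ) + k) := by
  have h1 : (cm x ^ (j : ℕ))ᵀ * cm x ^ (k : ℕ) =
      ((-1 : L)) ^ (j : ℕ) • cm x ^ ((j : ℕ) + k) := by
    rw [Matrix.transpose_pow, cm_transpose, neg_pow, pow_add]
    rcases Nat.even_or_odd (j : ℕ) with h | h
    · simp [h.neg_one_pow]
    · simp [h.neg_one_pow]
  have h2 : ((kry x)ᵀ * kry x) j k =
      ∑ a, ∑ b, ((cm x ^ (j : ℕ))ᵀ * cm x ^ (k : ℕ)) a b := by
    simp only [Matrix.mul_apply, Matrix.transpose_apply, kry, Matrix.of_apply,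
      Finset.sum_mul_sum]
    rw [Finset.sum_comm]
    refine Finset.sum_congr rfl fun a _ => ?_
    rw [Finset.sum_comm]
  rw [h2, h1, mom]
  simp only [Matrix.smul_apply, smul_eq_mul, Finset.mul_sum]

theorem ndelta_blocks (x : Fin n → L) (a b : ℕ) (hn : n = a + b) (h1 : b ≤ a) (h2 : a ≤ b + 1) :
    (kry x).det ^ 2 = Matrix.det (Matrix.of fun j k : Fin a => mom x (2 * ((j : ℕ) + k))) *
      ((-1) ^ b * Matrix.det (Matrix.of fun j k : Fin b => mom x (2 * ((j : ℕ) + k + 1)))) := by
  let e : Fin a ⊕ Fin b ≃ Fin n := Equiv.ofBijective _ (ndelta_bij a b n hn h1 h2)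
  have he1 : ∀ j : Fin a, ((e (Sum.inl j) : Fin n) : ℕ) = 2 * j := fun j => rfl
  have he2 : ∀ j : Fin b, ((e (Sum.inr j) : Fin n) : ℕ) = 2 * j + 1 := fun j => rfl
  have h3 : (kry x).det ^ 2 = ((kry x)ᵀ * kry x).det := by
    rw [Matrix.det_mul, Matrix.det_transpose, sq]
  have h4 : ((kry x)ᵀ * kry x).submatrix e e = Matrix.fromBlocks
      (Matrix.of fun j k : Fin a => mom x (2 * ((j : ℕ) + k))) 0 0
      (-(Matrix.of fun j k : Fin b => mom x (2 * ((j : ℕ) + k + 1)))) := by
    ext (i | i) (j | j)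
    · rw [Matrix.submatrix_apply, ndelta_gram, he1, he1, Matrix.fromBlocks_apply₁₁,
        Matrix.of_apply, pow_mul, ← mul_add]
      simp
    · rw [Matrix.submatrix_apply, ndelta_gram, he1, he2, Matrix.fromBlocks_apply₁₂,
        mom_odd x ⟨(i : ℕ) + j, by ring⟩]
      simp
    · rw [Matrix.submatrix_apply, ndelta_gram, he1, he2, Matrix.fromBlocks_apply₂₁,
        mom_odd x ⟨(i : ℕ) + j, by ring⟩]
      simp
    · rw [Matrix.submatrix_apply, ndelta_gram, he2, he2, Matrix.fromBlocks_apply₂₂,
        Matrix.neg_apply, Matrix.of_apply, pow_succ, pow_mul]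
      have h5 : 2 * (i : ℕ) + 1 + (2 * j + 1) = 2 * ((i : ℕ) + j + 1) := by ring
      rw [h5]
      simp
  rw [h3, ← Matrix.det_submatrix_equiv_self e, h4, Matrix.det_fromBlocks_zero₂₁,
    Matrix.det_neg, Fintype.card_fin]

omit [CharZero L] in
/-- Cayley-Hamilton for the moments -/
theorem ndelta_ch (x : Fin n → L) (s : ℕ) :
    ∑ l ∈ Finset.range (n + 1), (cm x).charpoly.coeff l * mom x (l + s) = 0 := by
  have h1 := Matrix.aeval_self_charpoly (cm x)
  rw [Polynomial.aeval_eq_sum_range, Matrix.charpoly_natDegree_eq_dim, Fintype.card_fin] at h1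
  have h2 := congrArg (fun M : Matrix (Fin n) (Fin n) L => ∑ i, ∑ j, (M * cm x ^ s) i j) h1
  simp only [Finset.sum_mul, Matrix.sum_apply, zero_mul, Matrix.zero_apply,
    Finset.sum_const_zero, smul_mul_assoc, Matrix.smul_apply, smul_eq_mul, ← pow_add] at h2
  rw [← h2]
  simp only [mom, Finset.mul_sum]
  rw [Finset.sum_comm]
  refine Finset.sum_congr rfl fun i _ => ?_
  rw [Finset.sum_comm]

omit [CharZero L] in
theorem ndelta_det_cast {a b : ℕ} (h : a = b) (f : ℕ → ℕ → L) :
    Matrix.det (Matrix.of fun j k : Fin a => f j k) =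
      Matrix.det (Matrix.of fun j k : Fin b => f j k) := by
  subst h
  rfl

theorem kry_det_sq {x : Fin n → L} (hx : Function.Injective x) :
    (kry x).det ^ 2 = (cm x).charpoly.coeff (n % 2) * hnk x ^ 2 := by
  have hsgn : ∀ m : ℕ, ((-1 : L)) ^ m * (-1) ^ m = 1 := fun m => by
    rw [← mul_pow]
    simp
  have hlead : (cm x).charpoly.coeff n = 1 := by
    have h1 := (Matrix.charpoly_monic (cm x)).coeff_natDegree
    rwa [Matrix.charpoly_natDegree_eq_dim, Fintype.card_fin] at h1
  rcases Nat.even_or_odd' n with ⟨m, hm | hm⟩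
  · -- even case
    have hr : n % 2 = 0 := by omega
    have hq : n / 2 = m := by omega
    have hrel : ∀ j, ∑ i ∈ Finset.range (m + 1), (cm x).charpoly.coeff (2 * i) *
        mom x (2 * (j + i)) = 0 := by
      intro j
      have h1 := ndelta_ch x (2 * j)
      have hR : Finset.range (n + 1) = Finset.range (2 * m + 1) := by rw [hm]
      rw [hR] at h1
      rw [ndelta_sum_even _ (fun l hl => by
        rw [charpoly_coeff_odd x (by rw [hm]; exact (even_two_mul m).add_odd hl), zero_mul]) m] at h1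
      rw [← h1]
      refine Finset.sum_congr rfl fun i _ => ?_
      congr 2
      ring
    have h1 := ndelta_hankel (m := m) (fun a => mom x (2 * a))
      (fun i => (cm x).charpoly.coeff (2 * i)) (by rw [← hm]; exact hlead) hrel
    have h2 := ndelta_blocks x m m (by omega) le_rfl (by omega)
    have h3 : hnk x = Matrix.det (Matrix.of fun j k : Fin m => mom x (2 * ((j : ℕ) + k))) := by
      unfold hnk
      rw [hr]
      exact ndelta_det_cast hq (fun j k => mom x (2 * (j + k) + 2 * 0))
    rw [h2, hr, h3]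
    have h1' : Matrix.det (Matrix.of fun j k : Fin m => mom x (2 * ((j : ℕ) + k + 1))) =
      (-1) ^ m * (cm x).charpoly.coeff (2 * 0) *
        Matrix.det (Matrix.of fun j k : Fin m => mom x (2 * ((j : ℕ) + k))) := h1
    rw [h1', mul_zero]
    linear_combination ((cm x).charpoly.coeff 0 *
      Matrix.det (Matrix.of fun j k : Fin m => mom x (2 * ((j : ℕ) + k))) ^ 2) * hsgn m
  · -- odd case
    have hr : n % 2 = 1 := by omega
    have hq : n / 2 = m := by omega
    have hrel : ∀ j, 0 < j → ∑ i ∈ Finset.range (m + 1), (cm x).charpoly.coeff (2 * i + 1) *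
        mom x (2 * (j + i)) = 0 := by
      intro j hj
      have h1 := ndelta_ch x (2 * j - 1)
      have h0 : (cm x).charpoly.coeff 0 = 0 := charpoly_coeff_odd x (by rw [hm]; exact ⟨m, rfl⟩)
      have hR : Finset.range n = Finset.range (2 * m + 1) := by rw [hm]
      rw [Finset.sum_range_succ', h0, zero_mul, add_zero, hR] at h1
      rw [ndelta_sum_even _ (fun l hl => by
        rw [charpoly_coeff_odd x (by
          rw [hm]
          obtain ⟨c, hc⟩ := hl
          exact ⟨m + c + 1, by omega⟩), zero_mul]) m] at h1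
      rw [← h1]
      refine Finset.sum_congr rfl fun i _ => ?_
      congr 2
      omega
    have h00 : ∑ i ∈ Finset.range (m + 1), (cm x).charpoly.coeff (2 * i + 1) * mom x (2 * i) =
        (cm x).charpoly.coeff 1 := by
      have h1 := newton (cm x) (k := n - 1) (by omega)
      have h2 : n - (n - 1) = 1 := by omega
      have h3 : n - 1 + 1 = 2 * m + 1 := by omega
      rw [h2, h3] at h1
      rw [ndelta_sum_even _ (fun l hl => by
        rw [← mom_eq_trace hx, mom_odd x hl, mul_zero]) m] at h1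
      rw [Nat.cast_one, one_mul] at h1
      rw [← h1]
      refine Finset.sum_congr rfl fun i _ => ?_
      rw [← mom_eq_trace hx, add_comm 1]
    have h1 := ndelta_hankel' (m := m) (fun a => mom x (2 * a))
      (fun i => (cm x).charpoly.coeff (2 * i + 1)) _ (by rw [← hm]; exact hlead) h00 hrel
    have h2 := ndelta_blocks x (m + 1) m (by omega) (by omega) le_rfl
    have h3 : hnk x = Matrix.det (Matrix.of fun j k : Fin m => mom x (2 * ((j : ℕ) + k + 1))) := by
      unfold hnk
      rw [hr]
      rw [ndelta_det_cast hq (fun j k => mom x (2 * (j + k) + 2 * 1))]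
      congr 1
    have h1' : Matrix.det (Matrix.of fun j k : Fin (m + 1) => mom x (2 * ((j : ℕ) + k))) =
      (-1) ^ m * (cm x).charpoly.coeff 1 *
        Matrix.det (Matrix.of fun j k : Fin m => mom x (2 * ((j : ℕ) + k + 1))) := h1
    rw [h2, hr, h3, h1']
    linear_combination ((cm x).charpoly.coeff 1 *
      Matrix.det (Matrix.of fun j k : Fin m => mom x (2 * ((j : ℕ) + k + 1))) ^ 2) * hsgn m

end NoetherAn
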