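import Pool.Agent.H.MP_ffe2f0_al.NDefs

/-! Module NPoint: a point where the Krylov determinant does not vanish.

PROOF. n = 0, 1: trivial (kry = 1x1 matrix 1). n ≥ 2 EVEN: x = all n-th roots of unity (x i = ζ^i). For a function v on the roots, (S v)(z) = ∑_{w≠z} v(w)/(z-w). With v = (w ↦ w^k), 1 ≤ k ≤ n, w = z u: (S v)(z) = z^(k-1) ∑_{u≠1} u^k/(1-u) = z^(k-1) ((k-1) - (n-1)/2) = (k - (n+1)/2) z^(k-1). The sum ∑_{u ≠ 1, u^n = 1} u^(l+1)/(1-u) = l - (n-1)/2 for 0 ≤ l < n is the theorem C4_sum in Pool/Agent/H/MP_83e36b_nt/C4.lean (copy it; stated with ZMod m indexing). As 1 = w^n: S^k 1 = c_k * (w ↦ w^(n-k)), k = 0..n-1, c_k = ∏_{j<k} (n - j - (n+1)/2), nonzero because n is even (n - j - (n+1)/2 is a half integer). So kry x has the columns c_k w^(n-k): after reordering the columns a Vandermonde matrix (exponents n ≡ 0 → exponent 0; 1..n-1) times a diagonal matrix; det ≠ 0 (x injective).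
n = M+1 ODD, M ≥ 2 even: x = (0, all M-th roots of unity). For v = w^k (v(0) = 0 for k ≥ 1): at z ≠ 0: (S v)(z) = (k - (M+1)/2) z^(k-1) for 1 ≤ k ≤ M; at 0: -∑_w w^(k-1) = 0 for 2 ≤ k ≤ M, and = -M for k = 1. For v = 1: at z ≠ 0: 1/z + ((M-1)/2) z^(M-1) = ((M+1)/2) z^(M-1) (z^-1 = z^(M-1)); at 0: -∑ w^(-1) = 0. So S 1 = ((M+1)/2) w^(M-1) (as a function on {0} ∪ roots; M-1 ≥ 1), S w^k = (k - (M+1)/2) w^(k-1) for 2 ≤ k ≤ M-1 with nonzero coefficient (M even), and S w^1 = u with u(z) = (1-M)/2 for z ≠ 0, u(0) = -M. Hence the columns S^k 1 (k=0..M) are nonzero multiples of 1, w^(M-1), ..., w^1, u. They are linearly independent: a*1 + ∑_{k=1}^{M-1} b_k w^k + c u = 0; on the M-th roots of unity this is a polynomial of degree < M vanishing at M points: b_k = 0, a = -c(1-M)/2 = c(M-1)/2; at 0: a - c M = 0, so c (M-1)/2 = c M, c (M+1) = 0, c = 0, a = 0. (Injective mulVec implies det ≠ 0.) Any other choice of points is fine too.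
-/

open Polynomial Matrix

namespace NoetherAn

section Roots

variable {L : Type*} [Field L] [CharZero L] {m : ℕ} [NeZero m]

/-- the sums `∑_{k ≠ 0} z(k)^(l+1) / (1 - z(k))` over the nontrivial `m`-th roots of unity -/
theorem np_sum {ζ : L} (hζ : IsPrimitiveRoot ζ m) (z : ZMod m → L)
    (hz : ∀ a, z a = ζ ^ a.val) (hadd : ∀ a b, z (a + b) = z a * z b) (l : ℕ) (hl : l < m) :
    ∑ k ∈ Finset.univ.erase (0 : ZMod m), z k ^ (l + 1) / (1 - z k) = (l : L) - (m - 1) / 2 := by
  have hz0 : z 0 = 1 := by rw [hz]; simp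
  have hne : ∀ k ∈ Finset.univ.erase (0 : ZMod m), 1 - z k ≠ 0 := by
    intro k hk h
    have hk0 : k ≠ 0 := (Finset.mem_erase.mp hk).1
    have h1 : ζ ^ k.val = 1 := by rw [← hz]; linear_combination -h
    exact hζ.pow_ne_one_of_pos_of_lt (by rwa [Ne, ZMod.val_eq_zero]) (ZMod.val_lt k) h1
  have hcard : ((Finset.univ.erase (0 : ZMod m)).card : L) = m - 1 := by
    rw [Finset.card_erase_of_mem (Finset.mem_univ _), Finset.card_univ, ZMod.card,
      Nat.cast_sub (Nat.one_le_iff_ne_zero.mpr (NeZero.ne m)), Nat.cast_one]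
  induction l with
  | zero =>
    have hzn : ∀ k, z k ≠ 0 := by
      intro k h
      have := hadd k (-k)
      rw [add_neg_cancel, hz0, h, zero_mul] at this
      exact one_ne_zero this
    have hinv : ∀ k, z (-k) = (z k)⁻¹ := by
      intro k
      have := hadd k (-k)
      rw [add_neg_cancel, hz0] at this
      exact eq_inv_of_mul_eq_one_right this.symm
    have h1 : ∑ k ∈ Finset.univ.erase (0 : ZMod m), z k ^ (0 + 1) / (1 - z k)
        = ∑ k ∈ Finset.univ.erase (0 : ZMod m), z (-k) ^ (0 + 1) / (1 - z (-k)) := by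
      refine Finset.sum_bij' (fun k _ => -k) (fun k _ => -k) ?_ ?_ ?_ ?_ ?_
      · intro k hk; simpa using hk
      · intro k hk; simpa using hk
      · intro k _; simp
      · intro k _; simp
      · intro k _; simp
    have h2 : ∑ k ∈ Finset.univ.erase (0 : ZMod m), z k ^ (0 + 1) / (1 - z k)
        + ∑ k ∈ Finset.univ.erase (0 : ZMod m), z (-k) ^ (0 + 1) / (1 - z (-k))
        = -((m : L) - 1) := by
      rw [← Finset.sum_add_distrib, ← hcard, ← nsmul_one, ← Finset.sum_const,
        ← Finset.sum_neg_distrib]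
      refine Finset.sum_congr rfl fun k hk => ?_
      have h3 := hne k hk
      have h4 := hzn k
      have h5 : z k - 1 ≠ 0 := fun h => h3 (by linear_combination -h)
      rw [hinv]
      have h6 : 1 - (z k)⁻¹ = (z k - 1) / z k := by field_simp
      rw [h6, zero_add, pow_one, pow_one]
      have h7 : z k / (1 - z k) = - (z k / (z k - 1)) := by
        rw [← neg_sub (z k) 1, div_neg]
      have h8 : (z k)⁻¹ / ((z k - 1) / z k) = 1 / (z k - 1) := by
        field_simp
      rw [h7, h8]
      field_simp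
      ring
    rw [← h1] at h2
    push_cast
    linear_combination (1/2 : L) * h2
  | succ l ih =>
    have ih' := ih (by omega)
    have hsum : ∑ k, z k ^ (l + 1) = 0 := by
      have h1 : z 1 ^ (l + 1) * ∑ k, z k ^ (l + 1) = ∑ k, z k ^ (l + 1) := by
        rw [Finset.mul_sum]
        refine Fintype.sum_equiv (Equiv.addLeft (1 : ZMod m)) _ _ fun k => ?_
        rw [Equiv.coe_addLeft, hadd, mul_pow]
      have h2 : z 1 ^ (l + 1) ≠ 1 := by
        intro h
        have h3 : (1 : ZMod m).val = 1 := by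
          have : Fact (1 < m) := ⟨by omega⟩
          exact ZMod.val_one m
        rw [hz, h3, pow_one] at h
        exact hζ.pow_ne_one_of_pos_of_lt (by omega) hl h
      by_contra h3
      exact h2 (mul_right_cancel₀ h3 (by rw [h1, one_mul]))
    have hsum' : ∑ k ∈ Finset.univ.erase (0 : ZMod m), z k ^ (l + 1) = -1 := by
      have := Finset.add_sum_erase Finset.univ (fun k => z k ^ (l + 1)) (Finset.mem_univ (0 : ZMod m))
      simp only [hz0, one_pow] at this
      rw [hsum] at this
      linear_combination this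
    have h1 : ∑ k ∈ Finset.univ.erase (0 : ZMod m), z k ^ (l + 1 + 1) / (1 - z k)
        = ∑ k ∈ Finset.univ.erase (0 : ZMod m), z k ^ (l + 1) / (1 - z k)
          - ∑ k ∈ Finset.univ.erase (0 : ZMod m), z k ^ (l + 1) := by
      rw [← Finset.sum_sub_distrib]
      refine Finset.sum_congr rfl fun k hk => ?_
      have h3 := hne k hk
      field_simp
      ring
    rw [h1, ih', hsum']
    push_cast
    ring

end Roots

/-- the `m`-th roots of unity as a family indexed by `Fin m`, with the action of the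
Calogero–Moser matrix on the powers -/
theorem np_roots (L : Type*) [Field L] [CharZero L] [IsAlgClosed L] (m : ℕ) [NeZero m] :
    ∃ x : Fin m → L, Function.Injective x ∧ (∀ i, x i ^ m = 1) ∧
      (∀ l, l < m → ∀ i, ∑ j, (x i - x j)⁻¹ * x j ^ (l + 1)
        = ((l : L) - (m - 1) / 2) * x i ^ l) ∧
      (∀ l, 0 < l → l < m → ∑ j, x j ^ l = 0) := by
  have hm0 : m ≠ 0 := NeZero.ne m
  have : NeZero ((m : ℕ) : L) := ⟨by simpa using hm0⟩
  obtain ⟨ζ, hζ⟩ := HasEnoughRootsOfUnity.exists_primitiveRoot L m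
  let e : Fin m ≃ ZMod m := Fintype.equivOfCardEq (by rw [Fintype.card_fin, ZMod.card])
  obtain ⟨z, hz⟩ : ∃ z : ZMod m → L, z = fun a => AddChar.zmodChar m hζ.pow_eq_one a := ⟨_, rfl⟩
  have hzv : ∀ a, z a = ζ ^ a.val := by intro a; rw [hz]; exact AddChar.zmodChar_apply _ _
  have hadd : ∀ a b, z (a + b) = z a * z b := by
    intro a b; rw [hz]; exact AddChar.map_add_eq_mul _ _ _
  have hz0 : z 0 = 1 := by rw [hzv]; simp
  have hzn : ∀ k, z k ≠ 0 := by
    intro k h
    have := hadd k (-k)
    rw [add_neg_cancel, hz0, h, zero_mul] at this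
    exact one_ne_zero this
  have hzinj : Function.Injective z := by
    intro a b h
    rw [hzv, hzv] at h
    exact ZMod.val_injective m (hζ.pow_inj (ZMod.val_lt a) (ZMod.val_lt b) h)
  have hsum := np_sum hζ z hzv hadd
  obtain ⟨x0, hx0⟩ : ∃ x0 : Fin m → L, x0 = fun i => z (e i) := ⟨_, rfl⟩
  have hinj : Function.Injective x0 := by
    rw [hx0]; exact hzinj.comp e.injective
  refine ⟨x0, hinj, ?_, ?_, ?_⟩
  · intro i
    rw [hx0]
    show z (e i) ^ m = 1
    rw [hzv, ← pow_mul, mul_comm, pow_mul, hζ.pow_eq_one, one_pow]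
  · intro l hl i
    have h1 : ∑ j, (x0 i - x0 j)⁻¹ * x0 j ^ (l + 1)
        = ∑ a : ZMod m, (if a = 0 then 0 else x0 i ^ l * (z a ^ (l + 1) / (1 - z a))) := by
      refine Fintype.sum_equiv (e.trans (Equiv.subRight (e i))) _ _ fun j => ?_
      simp only [Equiv.trans_apply, Equiv.subRight_apply]
      by_cases hij : i = j
      · subst hij
        simp
      · have hne : e j - e i ≠ 0 := by
          intro h; exact hij (e.injective (sub_eq_zero.mp h)).symm
        rw [if_neg hne]
        have hxj : x0 j = x0 i * z (e j - e i) := by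
          rw [hx0]
          show z (e j) = z (e i) * z (e j - e i)
          rw [← hadd]
          congr 1
          ring
        have hd : x0 i - x0 j ≠ 0 := by
          intro h; exact hij (hinj (sub_eq_zero.mp h))
        have hxi : x0 i ≠ 0 := by rw [hx0]; exact hzn _
        have hd1 : 1 - z (e j - e i) ≠ 0 := by
          intro h
          apply hd
          rw [hxj]
          linear_combination (x0 i) * h
        have hd2 : x0 i - x0 j = x0 i * (1 - z (e j - e i)) := by rw [hxj]; ring
        rw [hd2, hxj, mul_pow]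
        field_simp
        ring
    rw [h1, ← hsum l hl, Finset.sum_mul,
      ← Finset.add_sum_erase Finset.univ _ (Finset.mem_univ (0 : ZMod m)),
      if_pos rfl, zero_add]
    refine Finset.sum_congr rfl fun a ha => ?_
    rw [if_neg (Finset.mem_erase.mp ha).1]
    ring
  · intro l hl0 hl
    have h0 : ∑ j, x0 j ^ l = ∑ k, z k ^ l := by
      refine Fintype.sum_equiv e _ _ fun j => ?_
      rw [hx0]
    rw [h0]
    have h1 : z 1 ^ l * ∑ k, z k ^ l = ∑ k, z k ^ l := by
      rw [Finset.mul_sum]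
      refine Fintype.sum_equiv (Equiv.addLeft (1 : ZMod m)) _ _ fun k => ?_
      rw [Equiv.coe_addLeft, hadd, mul_pow]
    have h2 : z 1 ^ l ≠ 1 := by
      intro h
      have h3 : (1 : ZMod m).val = 1 := by
        have : Fact (1 < m) := ⟨by omega⟩
        exact ZMod.val_one m
      rw [hzv, h3, pow_one] at h
      exact hζ.pow_ne_one_of_pos_of_lt (by omega) hl h
    by_contra h3
    exact h2 (mul_right_cancel₀ h3 (by rw [h1, one_mul]))

/-- the Krylov vectors -/
theorem np_kry_zero {L : Type*} [Field L] {n : ℕ} (x : Fin n → L) (i : Fin n) :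
    ∑ j, (cm x ^ 0) i j = 1 := by
  rw [pow_zero, Finset.sum_eq_single i (fun j _ hj => Matrix.one_apply_ne' hj) (by simp)]
  simp

theorem np_kry_succ {L : Type*} [Field L] {n : ℕ} (x : Fin n → L) (k : ℕ) (i : Fin n) :
    ∑ j, (cm x ^ (k + 1)) i j = ∑ a, (x i - x a)⁻¹ * ∑ j, (cm x ^ k) a j := by
  simp only [pow_succ', Matrix.mul_apply, Finset.mul_sum]
  rw [Finset.sum_comm]
  rfl

/-- the coefficients of the Krylov vectors -/
def npc (L : Type*) [Field L] (m : ℕ) (s : L) : ℕ → L
  | 0 => s
  | k + 1 => npc L m s k * (((m : L) - k - 1) - (m - 1) / 2)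

theorem npc_ne_zero (L : Type*) [Field L] [CharZero L] (m : ℕ) (s : L) (hs : s ≠ 0)
    (hm : Even m) (k : ℕ) : npc L m s k ≠ 0 := by
  induction k with
  | zero => exact hs
  | succ k ih =>
    refine mul_ne_zero ih ?_
    intro h
    have h1 : ((m : ℕ) : L) = ((2 * k + 1 : ℕ) : L) := by
      push_cast
      linear_combination 2 * h
    have h2 : m = 2 * k + 1 := by exact_mod_cast h1
    obtain ⟨c, hc⟩ := hm
    omega

theorem np_even (K : Type*) [Field K] [CharZero K] [IsAlgClosed K] (n : ℕ) [NeZero n]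
    (hn : Even n) : ∃ x : Fin n → K, Function.Injective x ∧ (kry x).det ≠ 0 := by
  obtain ⟨x, hinj, hx1, hact, -⟩ := np_roots K n
  refine ⟨x, hinj, ?_⟩
  have hn0 : n ≠ 0 := NeZero.ne n
  have hkry : ∀ k, k < n → ∀ i, ∑ j, (cm x ^ k) i j = npc K n 1 k * x i ^ (n - k) := by
    intro k
    induction k with
    | zero =>
      intro _ i
      rw [np_kry_zero, Nat.sub_zero, hx1]
      simp [npc]
    | succ k ih =>
      intro hk i
      rw [np_kry_succ]
      have h1 : ∀ a, (x i - x a)⁻¹ * ∑ j, (cm x ^ k) a j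
          = npc K n 1 k * ((x i - x a)⁻¹ * x a ^ ((n - k - 1) + 1)) := by
        intro a
        rw [ih (by omega) a, show n - k - 1 + 1 = n - k by omega]
        ring
      rw [Finset.sum_congr rfl fun a _ => h1 a, ← Finset.mul_sum, hact _ (by omega)]
      have h2 : ((n - k - 1 : ℕ) : K) = (n : K) - k - 1 := by
        rw [Nat.cast_sub (by omega), Nat.cast_sub (by omega)]
        simp
      rw [h2, show n - (k + 1) = n - k - 1 by omega]
      simp only [npc]
      ring
  intro hdet
  obtain ⟨v, hv0, hv⟩ := Matrix.exists_mulVec_eq_zero_iff.mpr hdet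
  have hxne : ∀ i, x i ≠ 0 := by
    intro i h
    have := hx1 i
    rw [h, zero_pow hn0] at this
    exact zero_ne_one this
  have h3 : (fun i : Fin n => npc K n 1 (Fin.rev i : Fin n) * v (Fin.rev i)) = 0 := by
    refine Matrix.eq_zero_of_forall_index_sum_pow_mul_eq_zero hinj fun j => ?_
    have h4 := congrFun hv j
    simp only [Matrix.mulVec, dotProduct, kry, Matrix.of_apply, Pi.zero_apply] at h4
    have h5 : x j * ∑ i : Fin n, x j ^ (i : ℕ) * (npc K n 1 (Fin.rev i : Fin n) * v (Fin.rev i))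
        = 0 := by
      rw [← h4, Finset.mul_sum]
      refine Fintype.sum_equiv Fin.revPerm _ _ fun i => ?_
      rw [Fin.revPerm_apply, hkry _ (Fin.is_lt _) j]
      have h6 : n - ((Fin.rev i : Fin n) : ℕ) = (i : ℕ) + 1 := by
        rw [Fin.val_rev]; omega
      rw [h6]
      ring
    exact (mul_eq_zero.mp h5).resolve_left (hxne j)
  apply hv0
  funext i
  have h7 := congrFun h3 (Fin.rev i)
  simp only [Fin.rev_rev, Pi.zero_apply] at h7
  exact (mul_eq_zero.mp h7).resolve_left (npc_ne_zero K n 1 one_ne_zero hn _)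

/-- the coefficients of the Krylov vectors in the odd case -/
def npe (L : Type*) [Field L] (m : ℕ) (s : L) : ℕ → L
  | 0 => s
  | k + 1 => npe L m s k * (((m : L) - k - 2) - (m - 1) / 2)

theorem npe_ne_zero (L : Type*) [Field L] [CharZero L] (m : ℕ) (s : L) (hs : s ≠ 0)
    (hm : Even m) (k : ℕ) : npe L m s k ≠ 0 := by
  induction k with
  | zero => exact hs
  | succ k ih =>
    refine mul_ne_zero ih ?_
    intro h
    have h1 : ((m : ℕ) : L) = ((2 * k + 3 : ℕ) : L) := by
      push_cast
      linear_combination 2 * h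
    have h2 : m = 2 * k + 3 := by exact_mod_cast h1
    obtain ⟨c, hc⟩ := hm
    omega

theorem np_odd (K : Type*) [Field K] [CharZero K] [IsAlgClosed K] (M : ℕ) (hM : Even M)
    (hM0 : M ≠ 0) : ∃ x : Fin (M + 1) → K, Function.Injective x ∧ (kry x).det ≠ 0 := by
  have : NeZero M := ⟨hM0⟩
  have hM2 : 2 ≤ M := by obtain ⟨c, hc⟩ := hM; omega
  obtain ⟨y, hinj, hy1, hact, hsum⟩ := np_roots K M
  have hyne : ∀ i, y i ≠ 0 := by
    intro i h
    have := hy1 i
    rw [h, zero_pow hM0] at this
    exact zero_ne_one this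
  have hyinv : ∀ (i : Fin M) (l : ℕ), (y i)⁻¹ * y i ^ (l + 1) = y i ^ l := by
    intro i l
    have := hyne i
    field_simp
    ring
  obtain ⟨x, hx⟩ : ∃ x : Fin (M + 1) → K, x = Fin.cons 0 y := ⟨_, rfl⟩
  have hx0 : x 0 = 0 := by rw [hx]; rfl
  have hxs : ∀ i : Fin M, x i.succ = y i := by intro i; rw [hx]; rfl
  have hxinj : Function.Injective x := by
    intro a b
    refine Fin.cases ?_ (fun a => ?_) a <;> refine Fin.cases ?_ (fun b => ?_) b
    · intro _; rfl
    · intro h; rw [hx0, hxs] at h; exact absurd h.symm (hyne b)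
    · intro h; rw [hx0, hxs] at h; exact absurd h (hyne a)
    · intro h; rw [hxs, hxs] at h; rw [hinj h]
  refine ⟨x, hxinj, ?_⟩
  have hMK : (M : K) ≠ 0 := by exact_mod_cast hM0
  have hM1K : (M : K) + 1 ≠ 0 := by
    have : ((M + 1 : ℕ) : K) ≠ 0 := by exact_mod_cast Nat.succ_ne_zero M
    simpa using this
  obtain ⟨s, hs⟩ : ∃ s : K, s = ((M : K) + 1) / 2 := ⟨_, rfl⟩
  have hs0 : s ≠ 0 := by
    rw [hs]
    exact div_ne_zero hM1K two_ne_zero
  have hkry : ∀ k, k < M → (∀ i : Fin M, ∑ j, (cm x ^ (k + 1)) i.succ j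
        = npe K M s k * y i ^ (M - 1 - k)) ∧
      (k + 1 < M → ∑ j, (cm x ^ (k + 1)) 0 j = 0) := by
    intro k
    induction k with
    | zero =>
      intro _
      refine ⟨fun i => ?_, fun _ => ?_⟩
      · rw [np_kry_succ, Fin.sum_univ_succ, np_kry_zero, hx0, hxs, sub_zero, mul_one]
        have h1 : ∀ a : Fin M, (y i - x a.succ)⁻¹ * ∑ j, (cm x ^ 0) a.succ j
            = (y i - y a)⁻¹ * y a ^ ((M - 1) + 1) := by
          intro a
          rw [np_kry_zero, hxs, Nat.sub_add_cancel (by omega), hy1]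
        rw [Finset.sum_congr rfl fun a _ => h1 a, hact _ (by omega)]
        have h2 : ((M - 1 : ℕ) : K) = (M : K) - 1 := by
          rw [Nat.cast_sub (by omega)]; simp
        have h3 : (y i)⁻¹ = y i ^ (M - 1) := by
          rw [← hyinv i (M - 1), Nat.sub_add_cancel (by omega), hy1, mul_one]
        rw [h2, h3, Nat.sub_zero]
        simp only [npe]
        rw [hs]
        ring
      · rw [np_kry_succ, Fin.sum_univ_succ, hx0, sub_zero, _root_.inv_zero, zero_mul, zero_add]
        have h1 : ∀ a : Fin M, (0 - x a.succ)⁻¹ * ∑ j, (cm x ^ 0) a.succ j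
            = - y a ^ (M - 1) := by
          intro a
          rw [np_kry_zero, hxs, zero_sub, mul_one, ← hyinv a (M - 1),
            Nat.sub_add_cancel (by omega), hy1, mul_one, inv_neg]
        rw [Finset.sum_congr rfl fun a _ => h1 a, Finset.sum_neg_distrib,
          hsum _ (by omega) (by omega), neg_zero]
    | succ k ih =>
      intro hk
      obtain ⟨ih1, ih2⟩ := ih (by omega)
      have ih2 := ih2 hk
      refine ⟨fun i => ?_, fun hk' => ?_⟩
      · rw [np_kry_succ, Fin.sum_univ_succ, ih2, mul_zero, zero_add, hxs]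
        have h1 : ∀ a : Fin M, (y i - x a.succ)⁻¹ * ∑ j, (cm x ^ (k + 1)) a.succ j
            = npe K M s k * ((y i - y a)⁻¹ * y a ^ ((M - 2 - k) + 1)) := by
          intro a
          rw [ih1 a, hxs, show M - 2 - k + 1 = M - 1 - k by omega]
          ring
        rw [Finset.sum_congr rfl fun a _ => h1 a, ← Finset.mul_sum, hact _ (by omega)]
        have h2 : ((M - 2 - k : ℕ) : K) = (M : K) - k - 2 := by
          rw [Nat.cast_sub (by omega), Nat.cast_sub (by omega)]
          push_cast
          ring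
        rw [h2, show M - 1 - (k + 1) = M - 2 - k by omega]
        simp only [npe]
        ring
      · rw [np_kry_succ, Fin.sum_univ_succ, hx0, sub_zero, _root_.inv_zero, zero_mul, zero_add]
        have h1 : ∀ a : Fin M, (0 - x a.succ)⁻¹ * ∑ j, (cm x ^ (k + 1)) a.succ j
            = - (npe K M s k * y a ^ (M - 2 - k)) := by
          intro a
          rw [ih1 a, hxs, zero_sub, inv_neg, ← hyinv a (M - 2 - k),
            show M - 2 - k + 1 = M - 1 - k by omega]
          ring
        rw [Finset.sum_congr rfl fun a _ => h1 a, Finset.sum_neg_distrib, ← Finset.mul_sum,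
          hsum _ (by omega) (by omega), mul_zero, neg_zero]
  -- the last vector at zero
  have hlast : ∑ j, (cm x ^ M) 0 j = - (M * npe K M s (M - 2)) := by
    obtain ⟨ih1, -⟩ := hkry (M - 2) (by omega)
    have e1 : ∑ j, (cm x ^ M) 0 j = ∑ j, (cm x ^ ((M - 2 + 1) + 1)) 0 j := by
      rw [show M - 2 + 1 + 1 = M by omega]
    rw [e1, np_kry_succ, Fin.sum_univ_succ, hx0, sub_zero, _root_.inv_zero, zero_mul, zero_add]
    have h1 : ∀ a : Fin M, (0 - x a.succ)⁻¹ * ∑ j, (cm x ^ (M - 2 + 1)) a.succ j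
        = - npe K M s (M - 2) := by
      intro a
      have h2 := hyinv a 0
      rw [ih1 a, hxs, zero_sub, inv_neg, show M - 1 - (M - 2) = 0 + 1 by omega]
      rw [pow_zero] at h2
      linear_combination (- npe K M s (M - 2)) * h2
    rw [Finset.sum_congr rfl fun a _ => h1 a, Finset.sum_const, Finset.card_univ,
      Fintype.card_fin, nsmul_eq_mul]
    ring
  intro hdet
  obtain ⟨v, hv0, hv⟩ := Matrix.exists_mulVec_eq_zero_iff.mpr hdet
  have hv' : ∀ j, v 0 + ∑ i : Fin M, (∑ b, (cm x ^ ((i : ℕ) + 1)) j b) * v i.succ = 0 := by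
    intro j
    have h4 := congrFun hv j
    simp only [Matrix.mulVec, dotProduct, kry, Matrix.of_apply, Pi.zero_apply] at h4
    rw [Fin.sum_univ_succ] at h4
    rw [Fin.val_zero, np_kry_zero, one_mul] at h4
    exact h4
  -- the equations at the roots of unity
  have h3 : (fun i : Fin M => npe K M s (Fin.rev i : Fin M) * v (Fin.rev i).succ
      + (if i = 0 then v 0 else 0)) = 0 := by
    refine Matrix.eq_zero_of_forall_index_sum_pow_mul_eq_zero hinj fun j => ?_
    refine Eq.trans ?_ (hv' j.succ)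
    simp only [mul_add, Finset.sum_add_distrib, mul_ite, mul_zero]
    rw [Finset.sum_ite_eq' Finset.univ (0 : Fin M), if_pos (Finset.mem_univ _), Fin.val_zero,
      pow_zero, one_mul, add_comm]
    congr 1
    refine Fintype.sum_equiv Fin.revPerm _ _ fun i => ?_
    rw [Fin.revPerm_apply, (hkry _ (Fin.is_lt _)).1 j]
    have h6 : M - 1 - ((Fin.rev i : Fin M) : ℕ) = (i : ℕ) := by
      rw [Fin.val_rev]; omega
    rw [h6]
    ring
  have hvs : ∀ i : Fin M, (i : ℕ) + 1 < M → v i.succ = 0 := by
    intro i hi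
    have h7 := congrFun h3 (Fin.rev i)
    have h8 : Fin.rev i ≠ 0 := by
      intro h
      have := congrArg Fin.val h
      rw [Fin.val_rev, Fin.val_zero] at this
      omega
    simp only [Fin.rev_rev, Pi.zero_apply, if_neg h8, add_zero] at h7
    exact (mul_eq_zero.mp h7).resolve_left (npe_ne_zero K M s hs0 hM _)
  obtain ⟨z, hz⟩ : ∃ z : Fin M, z = Fin.rev 0 := ⟨_, rfl⟩
  have hzval : (z : ℕ) = M - 1 := by rw [hz, Fin.val_rev, Fin.val_zero]
  have hA : npe K M s (M - 1) * v z.succ + v 0 = 0 := by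
    have h7 := congrFun h3 0
    simp only [if_true, Pi.zero_apply] at h7
    rw [← hz, hzval] at h7
    exact h7
  have hB : v 0 - M * npe K M s (M - 2) * v z.succ = 0 := by
    refine Eq.trans ?_ (hv' 0)
    rw [Finset.sum_eq_single z]
    · rw [hzval, Nat.sub_add_cancel (by omega), hlast]
      ring
    · intro b _ hb
      have hb' : (b : ℕ) + 1 < M := by
        have h9 : (b : ℕ) ≠ z := fun h => hb (Fin.ext h)
        have := b.is_lt
        omega
      rw [hvs b hb', mul_zero]
    · intro h; exact absurd (Finset.mem_univ _) h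
  have hrec : npe K M s (M - 1) = npe K M s (M - 2) * (- ((M : K) - 1) / 2) := by
    have h9 : npe K M s (M - 2 + 1) = npe K M s (M - 2)
        * (((M : K) - ((M - 2 : ℕ) : K) - 2) - (M - 1) / 2) := rfl
    rw [show M - 1 = M - 2 + 1 by omega, h9, Nat.cast_sub hM2]
    push_cast
    ring
  have hC : (npe K M s (M - 2) * (((M : K) + 1) / 2)) * v z.succ = 0 := by
    rw [hrec] at hA
    linear_combination hA - hB
  have hvz : v z.succ = 0 := by
    refine (mul_eq_zero.mp hC).resolve_left ?_
    exact mul_ne_zero (npe_ne_zero K M s hs0 hM _) (div_ne_zero hM1K two_ne_zero)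
  have hv00 : v 0 = 0 := by rw [hvz, mul_zero, zero_add] at hA; exact hA
  apply hv0
  funext i
  refine Fin.cases hv00 (fun i => ?_) i
  by_cases hi : (i : ℕ) + 1 < M
  · exact hvs i hi
  · have : i = z := by
      apply Fin.ext
      have := i.is_lt
      omega
    rw [this]
    exact hvz

theorem exists_kry_ne_zero (K : Type*) [Field K] [CharZero K] [IsAlgClosed K] (n : ℕ) :
    ∃ x : Fin n → K, Function.Injective x ∧ (kry x).det ≠ 0 := by
  rcases Nat.even_or_odd n with hn | hn
  · rcases Nat.eq_zero_or_pos n with h0 | h0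
    · subst h0
      refine ⟨fun i => i.elim0, fun i => i.elim0, ?_⟩
      rw [Matrix.det_isEmpty]
      exact one_ne_zero
    · have : NeZero n := ⟨h0.ne'⟩
      exact np_even K n hn
  · obtain ⟨M, hM⟩ : ∃ M, n = M + 1 := ⟨n - 1, by obtain ⟨c, hc⟩ := hn; omega⟩
    subst hM
    rcases Nat.eq_zero_or_pos M with h0 | h0
    · subst h0
      show ∃ x : Fin 1 → K, Function.Injective x ∧ (kry x).det ≠ 0
      refine ⟨fun _ => 0, fun a b _ => Subsingleton.elim a b, ?_⟩
      rw [Matrix.det_fin_one]
      simp [kry]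
    · exact np_odd K M (by obtain ⟨c, hc⟩ := hn; exact ⟨c, by omega⟩) h0.ne'

end NoetherAn
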