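import Pool.Agent.H.MP_ffe2f0_al.NDefs

/-! Module NSym: permutations and field homomorphisms.
-/

open Polynomial Matrix

namespace NoetherAn

variable {L L' : Type*} [Field L] [Field L'] {n : ℕ}

theorem cm_comp (x : Fin n → L) (σ : Equiv.Perm (Fin n)) :
    cm (x ∘ σ) = (cm x).submatrix σ σ := by
  ext i j
  rfl

theorem cm_comp_pow (x : Fin n → L) (σ : Equiv.Perm (Fin n)) (a : ℕ) :
    cm (x ∘ σ) ^ a = (cm x ^ a).submatrix σ σ := by
  rw [cm_comp]
  induction a with
  | zero =>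
    ext i j
    simp [Matrix.submatrix_apply, Matrix.one_apply, σ.injective.eq_iff]
  | succ a ih =>
    rw [pow_succ, pow_succ, ih, Matrix.submatrix_mul_equiv]

theorem mom_comp (x : Fin n → L) (σ : Equiv.Perm (Fin n)) (a : ℕ) :
    mom (x ∘ σ) a = mom x a := by
  unfold mom
  rw [cm_comp_pow]
  simp only [Matrix.submatrix_apply]
  rw [← Equiv.sum_comp σ (fun i => ∑ j, (cm x ^ a) i j)]
  refine Finset.sum_congr rfl fun i _ => ?_
  rw [Equiv.sum_comp σ (fun j => (cm x ^ a) (σ i) j)]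

theorem cmom_comp (x : Fin n → L) (σ : Equiv.Perm (Fin n)) (a : ℕ) :
    cmom (x ∘ σ) a = cmom x a := by
  unfold cmom
  rw [cm_comp_pow]
  simp only [Matrix.submatrix_apply, Function.comp_apply]
  rw [← Equiv.sum_comp σ (fun i => ∑ j, x i * (cm x ^ a) i j)]
  refine Finset.sum_congr rfl fun i _ => ?_
  rw [Equiv.sum_comp σ (fun j => x (σ i) * (cm x ^ a) (σ i) j)]

theorem charpoly_comp (x : Fin n → L) (σ : Equiv.Perm (Fin n)) :
    (cm (x ∘ σ)).charpoly = (cm x).charpoly := by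
  rw [cm_comp]
  have := Matrix.charpoly_reindex σ.symm (cm x)
  rw [Matrix.reindex_apply, Equiv.symm_symm] at this
  exact this

theorem kry_comp (x : Fin n → L) (σ : Equiv.Perm (Fin n)) :
    kry (x ∘ σ) = (kry x).submatrix σ id := by
  ext i k
  rw [Matrix.submatrix_apply]
  unfold kry
  rw [Matrix.of_apply, Matrix.of_apply, cm_comp_pow]
  simp only [Matrix.submatrix_apply, id]
  rw [Equiv.sum_comp σ (fun j => (cm x ^ (k : ℕ)) (σ i) j)]

theorem kry_det_comp (x : Fin n → L) (σ : Equiv.Perm (Fin n)) :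
    (kry (x ∘ σ)).det = ((Equiv.Perm.sign σ : ℤˣ) : ℤ) * (kry x).det := by
  rw [kry_comp, Matrix.det_permute]

theorem hnk_comp (x : Fin n → L) (σ : Equiv.Perm (Fin n)) : hnk (x ∘ σ) = hnk x := by
  unfold hnk
  simp only [mom_comp]

theorem dlt_comp (x : Fin n → L) (σ : Equiv.Perm (Fin n)) :
    dlt (x ∘ σ) = ((Equiv.Perm.sign σ : ℤˣ) : ℤ) * dlt x := by
  unfold dlt
  rw [kry_det_comp, hnk_comp, mul_div_assoc]

theorem cm_map (φ : L →+* L') (x : Fin n → L) : cm (φ ∘ x) = (cm x).map φ := by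
  ext i j
  unfold cm
  rw [Matrix.of_apply, Matrix.map_apply, Matrix.of_apply, map_inv₀, map_sub]
  rfl

theorem cm_map_pow (φ : L →+* L') (x : Fin n → L) (a : ℕ) :
    cm (φ ∘ x) ^ a = (cm x ^ a).map φ := by
  rw [cm_map]
  exact (map_pow (φ.mapMatrix) (cm x) a).symm

theorem mom_map (φ : L →+* L') (x : Fin n → L) (a : ℕ) : mom (φ ∘ x) a = φ (mom x a) := by
  unfold mom
  rw [cm_map_pow, map_sum]
  refine Finset.sum_congr rfl fun i _ => ?_
  rw [map_sum]
  rfl

theorem cmom_map (φ : L →+* L') (x : Fin n → L) (a : ℕ) : cmom (φ ∘ x) a = φ (cmom x a) := by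
  unfold cmom
  rw [cm_map_pow, map_sum]
  refine Finset.sum_congr rfl fun i _ => ?_
  rw [map_sum]
  refine Finset.sum_congr rfl fun j _ => ?_
  rw [map_mul]
  rfl

theorem charpoly_map' (φ : L →+* L') (x : Fin n → L) :
    (cm (φ ∘ x)).charpoly = (cm x).charpoly.map φ := by
  rw [cm_map, Matrix.charpoly_map]

theorem kry_map (φ : L →+* L') (x : Fin n → L) : kry (φ ∘ x) = (kry x).map φ := by
  ext i k
  rw [Matrix.map_apply]
  unfold kry
  rw [Matrix.of_apply, Matrix.of_apply, cm_map_pow, map_sum]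
  rfl

theorem hnk_map (φ : L →+* L') (x : Fin n → L) : hnk (φ ∘ x) = φ (hnk x) := by
  unfold hnk
  rw [RingHom.map_det]
  congr 1
  ext j k
  rw [Matrix.of_apply, RingHom.mapMatrix_apply, Matrix.map_apply, Matrix.of_apply, mom_map]

theorem dlt_map (φ : L →+* L') (x : Fin n → L) : dlt (φ ∘ x) = φ (dlt x) := by
  unfold dlt
  rw [kry_map, hnk_map, map_div₀]
  congr 1
  exact (RingHom.map_det φ (kry x)).symm

theorem gens_map (φ : L →+* L') (x : Fin n → L) (i : Fin n) :
    gens (φ ∘ x) i = φ (gens x i) := by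
  unfold gens
  split_ifs with h1 h2
  · exact dlt_map φ x
  · rw [charpoly_map', Polynomial.coeff_map]
  · exact cmom_map φ x _

/-- the generators are invariant under even permutations -/
theorem gens_comp (x : Fin n → L) (σ : Equiv.Perm (Fin n)) (hσ : Equiv.Perm.sign σ = 1)
    (i : Fin n) : gens (x ∘ σ) i = gens x i := by
  unfold gens
  rw [dlt_comp, charpoly_comp, cmom_comp, hσ]
  simp

end NoetherAn
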