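import Pool.Agent.H.MP_ffe2f0_al.NDefs
import Pool.Agent.H.MP_ffe2f0_al.NSym
import Pool.Agent.H.MP_ffe2f0_al.NPoint

/-! Module NGeneric: the Krylov determinant of the variables.
-/

open Polynomial Matrix

namespace NoetherAn

section Clear

variable {R : Type*} [CommRing R] {n : ℕ}

/-- product of all differences of different variables -/
def gD (y : Fin n → R) : R := ∏ p ∈ (Finset.univ : Finset (Fin n)).offDiag, (y p.1 - y p.2)

/-- `gD y * cm y` without denominators -/
def gS (y : Fin n → R) : Matrix (Fin n) (Fin n) R := Matrix.of fun i j =>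
  if i = j then 0 else ∏ p ∈ (Finset.univ : Finset (Fin n)).offDiag.erase (i, j), (y p.1 - y p.2)

/-- the Krylov matrix of `gS y` -/
def gN (y : Fin n → R) : Matrix (Fin n) (Fin n) R := Matrix.of fun i k => ∑ j, (gS y ^ (k : ℕ)) i j

variable {F : Type*} [Field F]

theorem gD_ne_zero (φ : R →+* F) (y : Fin n → R) (h : Function.Injective (φ ∘ y)) :
    φ (gD y) ≠ 0 := by
  unfold gD
  rw [map_prod]
  refine Finset.prod_ne_zero_iff.2 fun p hp => ?_
  rw [Finset.mem_offDiag] at hp
  rw [map_sub, sub_ne_zero]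
  exact fun e => hp.2.2 (h e)

theorem gS_map (φ : R →+* F) (y : Fin n → R) (h : Function.Injective (φ ∘ y)) :
    (gS y).map φ = φ (gD y) • cm (φ ∘ y) := by
  ext i j
  simp only [Matrix.map_apply, gS, Matrix.of_apply, Matrix.smul_apply, cm, smul_eq_mul,
    Function.comp_apply]
  by_cases hij : i = j
  · subst hij
    simp
  · rw [if_neg hij]
    have hmem : (i, j) ∈ (Finset.univ : Finset (Fin n)).offDiag := by
      rw [Finset.mem_offDiag]
      exact ⟨Finset.mem_univ _, Finset.mem_univ _, hij⟩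
    have hne : φ (y i) - φ (y j) ≠ 0 := by
      rw [sub_ne_zero]
      exact fun e => hij (h e)
    unfold gD
    rw [← Finset.mul_prod_erase _ _ hmem]
    simp only [map_mul, map_sub]
    field_simp

theorem kry_eq (φ : R →+* F) (y : Fin n → R) (h : Function.Injective (φ ∘ y)) :
    (gN y).map φ = kry (φ ∘ y) * Matrix.diagonal fun k : Fin n => φ (gD y) ^ (k : ℕ) := by
  ext i k
  rw [Matrix.mul_diagonal]
  simp only [Matrix.map_apply, gN, kry, Matrix.of_apply, map_sum]
  rw [Finset.sum_mul]
  refine Finset.sum_congr rfl fun j _ => ?_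
  have h1 : ((gS y) ^ (k : ℕ)).map φ = ((gS y).map φ) ^ (k : ℕ) := by
    have := map_pow φ.mapMatrix (gS y) (k : ℕ)
    simpa only [RingHom.mapMatrix_apply] using this
  have h2 : φ ((gS y ^ (k : ℕ)) i j) = ((gS y ^ (k : ℕ)).map φ) i j := rfl
  rw [h2, h1, gS_map φ y h, _root_.smul_pow, Matrix.smul_apply, smul_eq_mul, mul_comm]

theorem kry_ne_zero_iff (φ : R →+* F) (y : Fin n → R) (h : Function.Injective (φ ∘ y)) :
    (kry (φ ∘ y)).det ≠ 0 ↔ φ (gN y).det ≠ 0 := by
  have h1 : φ (gN y).det = ((gN y).map φ).det := by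
    rw [RingHom.map_det]
    rfl
  rw [h1, kry_eq φ y h, Matrix.det_mul, Matrix.det_diagonal]
  have h2 : ∏ k : Fin n, φ (gD y) ^ (k : ℕ) ≠ 0 :=
    Finset.prod_ne_zero_iff.2 fun k _ => pow_ne_zero _ (gD_ne_zero φ y h)
  constructor
  · intro h3
    exact mul_ne_zero h3 h2
  · intro h3
    exact left_ne_zero_of_mul h3

end Clear

theorem vr_injective (k : Type*) [Field k] (n : ℕ) : Function.Injective (vr k n) := by
  intro i j hij
  have h1 : (MvPolynomial.X i : MvPolynomial (Fin n) k) = MvPolynomial.X j :=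
    IsFractionRing.injective (MvPolynomial (Fin n) k) (RatField k n) hij
  exact MvPolynomial.X_injective h1

theorem kry_vr_ne_zero (k : Type*) [Field k] [CharZero k] (n : ℕ) :
    (kry (vr k n)).det ≠ 0 := by
  have hC : CharZero (AlgebraicClosure k) := charZero_of_injective_algebraMap
    (algebraMap k (AlgebraicClosure k)).injective
  obtain ⟨x, hx, hdet⟩ := exists_kry_ne_zero (AlgebraicClosure k) n
  set y : Fin n → MvPolynomial (Fin n) k := fun i => MvPolynomial.X i with hy
  set φ2 : MvPolynomial (Fin n) k →+* AlgebraicClosure k :=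
    (MvPolynomial.aeval x : MvPolynomial (Fin n) k →ₐ[k] AlgebraicClosure k).toRingHom with hφ2
  have e2 : φ2 ∘ y = x := by
    funext i
    simp [hφ2, hy]
  have h2 := kry_ne_zero_iff φ2 y (by rw [e2]; exact hx)
  rw [e2] at h2
  have h3 : (gN y).det ≠ 0 := fun e => h2.1 hdet (by rw [e, map_zero])
  set φ1 : MvPolynomial (Fin n) k →+* RatField k n :=
    algebraMap (MvPolynomial (Fin n) k) (RatField k n) with hφ1
  have e1 : φ1 ∘ y = vr k n := rfl
  have h1 := kry_ne_zero_iff φ1 y (by rw [e1]; exact vr_injective k n)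
  rw [e1] at h1
  refine h1.2 fun e => h3 ?_
  exact (map_eq_zero_iff φ1 (IsFractionRing.injective (MvPolynomial (Fin n) k) (RatField k n))).1 e

end NoetherAn
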