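import Pool.Agent.H.MP_ffe2f0_al.NDefs
import Pool.Agent.H.MP_ffe2f0_al.NComm

/-! Module NMain: the elementary symmetric functions.

PROOF. N = kry x (columns S^k 1), X = diagonal x. A := Nᵀ N: A_{jk} = (S^j 1)ᵀ (S^k 1) = 1ᵀ (Sᵀ)^j S^k 1 = (-1)^j mom x (j+k) ∈ K (cm_transpose). B := Nᵀ X N: B_{jk} = (-1)^j 1ᵀ S^j X S^k 1 ∈ K by mixed_moment (NComm). det A = det(N)^2 ≠ 0. M := A⁻¹ * B has entries in K (A⁻¹ = (det A)⁻¹ adjugate; A and B are images of matrices over K under K.subtype, so is A⁻¹ B). And M = N⁻¹ X N, so charpoly M = charpoly X = ∏ (X - C (x i)) (charpoly_diagonal or det_diagonal; Matrix.charpoly_units_conj). The charpoly of a matrix which is the image of a matrix over K is the image of its charpoly (charpoly_map), so its coefficients are in K.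
-/

open Polynomial Matrix

namespace NoetherAn

variable {L : Type*} [Field L] {n : ℕ}

theorem NMain_sum (D P Q : Matrix (Fin n) (Fin n) L) (j k : Fin n) (N : Matrix (Fin n) (Fin n) L)
    (hP : ∀ i, N i j = ∑ a, P i a) (hQ : ∀ i, N i k = ∑ b, Q i b) :
    (Nᵀ * D * N) j k = ∑ a, ∑ b, (Pᵀ * D * Q) a b := by
  have e1 : ∀ i l, (Nᵀ j i * D i l) * N l k = ∑ a, ∑ b, (Pᵀ a i * D i l) * Q l b := by
    intro i l
    rw [transpose_apply, hP, hQ]
    simp only [transpose_apply, Finset.sum_mul, Finset.mul_sum]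
    rw [Finset.sum_comm]
  calc (Nᵀ * D * N) j k = ∑ l, ∑ i, (Nᵀ j i * D i l) * N l k := by
        simp only [mul_apply, Finset.sum_mul]
    _ = ∑ l, ∑ i, ∑ a, ∑ b, (Pᵀ a i * D i l) * Q l b := by
        simp only [e1]
    _ = ∑ a, ∑ b, ∑ l, ∑ i, (Pᵀ a i * D i l) * Q l b := by
        have e2 : ∀ l : Fin n, ∑ i, ∑ a, ∑ b, (Pᵀ a i * D i l) * Q l b =
            ∑ a, ∑ b, ∑ i, (Pᵀ a i * D i l) * Q l b := by
          intro l
          rw [Finset.sum_comm]
          refine Finset.sum_congr rfl fun a _ => ?_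
          rw [Finset.sum_comm]
        simp only [e2]
        rw [Finset.sum_comm]
        refine Finset.sum_congr rfl fun a _ => ?_
        rw [Finset.sum_comm]
    _ = ∑ a, ∑ b, (Pᵀ * D * Q) a b := by
        simp only [mul_apply, Finset.sum_mul]

theorem NMain_transpose_pow (x : Fin n → L) (j : ℕ) :
    ((cm x) ^ j)ᵀ = (-1 : L) ^ j • (cm x) ^ j := by
  rw [transpose_pow, cm_transpose, neg_pow]
  induction j with
  | zero => simp
  | succ j ih =>
    rcases Nat.even_or_odd (j + 1) with h | h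
    · rw [h.neg_one_pow, h.neg_one_pow, one_mul, one_smul]
    · rw [h.neg_one_pow, h.neg_one_pow]; simp

theorem NMain_entry (x : Fin n → L) (D : Matrix (Fin n) (Fin n) L) (j k : Fin n) :
    ((kry x)ᵀ * D * kry x) j k =
      (-1 : L) ^ (j : ℕ) * ∑ a, ∑ b, ((cm x) ^ (j : ℕ) * D * (cm x) ^ (k : ℕ)) a b := by
  rw [NMain_sum D ((cm x) ^ (j : ℕ)) ((cm x) ^ (k : ℕ)) j k (kry x) (fun i => rfl)
    (fun i => rfl), NMain_transpose_pow]
  simp only [smul_mul_assoc, Matrix.smul_apply, smul_eq_mul, Finset.mul_sum]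

theorem coeff_prod_mem {x : Fin n → L} (hx : Function.Injective x) (hN : (kry x).det ≠ 0)
    (K : Subfield L) (hp : ∀ a, mom x a ∈ K) (hc : ∀ a, cmom x a ∈ K) (j : ℕ) :
    (∏ i, (X - C (x i))).coeff j ∈ K := by
  set N := kry x with hNdef
  have hA : ∀ j k : Fin n, (Nᵀ * (1 : Matrix (Fin n) (Fin n) L) * N) j k ∈ K := by
    intro j k
    rw [hNdef, NMain_entry, Matrix.mul_one, ← pow_add]
    exact mul_mem (pow_mem (neg_mem (one_mem K)) _) (hp _)
  have hB : ∀ j k : Fin n, (Nᵀ * diagonal x * N) j k ∈ K := by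
    intro j k
    rw [hNdef, NMain_entry, mixed_moment hx]
    refine mul_mem (pow_mem (neg_mem (one_mem K)) _) (add_mem (sub_mem (hc _)
      (sum_mem fun a _ => mul_mem (hp _) (hp _))) (mul_mem (natCast_mem K _) (hp _)))
  set A' : Matrix (Fin n) (Fin n) K := Matrix.of fun j k => ⟨_, hA j k⟩ with hA'
  set B' : Matrix (Fin n) (Fin n) K := Matrix.of fun j k => ⟨_, hB j k⟩ with hB'
  have hAm : A'.map K.subtype = Nᵀ * (1 : Matrix (Fin n) (Fin n) L) * N := by
    ext a b; rfl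
  have hBm : B'.map K.subtype = Nᵀ * diagonal x * N := by
    ext a b; rfl
  have hdet : A'.det ≠ 0 := by
    intro h0
    have h1 : K.subtype A'.det = (A'.map K.subtype).det := RingHom.map_det _ _
    rw [h0, map_zero, hAm, Matrix.mul_one, det_mul, det_transpose] at h1
    exact mul_ne_zero hN hN h1.symm
  set M' : Matrix (Fin n) (Fin n) K := A'⁻¹ * B' with hM'
  have hAM : A' * M' = B' := by
    rw [hM', ← Matrix.mul_assoc, Matrix.mul_nonsing_inv _ (IsUnit.mk0 _ hdet), Matrix.one_mul]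
  set M : Matrix (Fin n) (Fin n) L := M'.map K.subtype with hM
  have h2 : (Nᵀ * (1 : Matrix (Fin n) (Fin n) L) * N) * M = Nᵀ * diagonal x * N := by
    rw [← hAm, ← hBm, hM, ← Matrix.map_mul, hAM]
  have hNt : IsUnit (Nᵀ).det := by rw [det_transpose]; exact IsUnit.mk0 _ hN
  have h3 : N * M = diagonal x * N := by
    rw [Matrix.mul_one, Matrix.mul_assoc, Matrix.mul_assoc] at h2
    have h4 := congrArg (fun Z => (Nᵀ)⁻¹ * Z) h2
    simp only [← Matrix.mul_assoc, Matrix.nonsing_inv_mul _ hNt, Matrix.one_mul] at h4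
    exact h4
  have hNu : IsUnit N := (Matrix.isUnit_iff_isUnit_det N).2 (IsUnit.mk0 _ hN)
  obtain ⟨u, hu⟩ := hNu
  have h5 : M = (u⁻¹).val * diagonal x * u.val := by
    rw [Matrix.mul_assoc, hu, ← h3, ← hu, ← Matrix.mul_assoc, Units.inv_mul, Matrix.one_mul]
  have h6 : M.charpoly = ∏ i, (X - C (x i)) := by
    rw [h5, Matrix.coe_units_inv, Matrix.charpoly_units_conj', Matrix.charpoly_diagonal]
  rw [← h6, hM, Matrix.charpoly_map, Polynomial.coeff_map]
  exact (M'.charpoly.coeff j).2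

end NoetherAn
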