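import Pool.Agent.H.MP_ffe2f0_al.NDefs
import Pool.Agent.H.MP_ffe2f0_al.NComm
import Pool.Agent.H.MP_ffe2f0_al.NNewton

/-! Module NMem: moments lie in the field generated by the coefficients.

PROOF. mom_mem: strong induction on a. a < n: newton (NNewton) for M = cm x, k = a, with trace(M^b) = mom x b (mom_eq_trace, NComm): the term b = a has coefficient π_n = 1 (charpoly monic of degree n), so mom x a = (n-a) π_{n-a} - ∑_{b<a} π_{n-a+b} mom x b. a ≥ n: Cayley-Hamilton (aeval_self_charpoly) multiplied by S^(a-n): S^a = - ∑_{i<n} π_i S^(a-n+i), take the sum of all entries.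
cmom_mem: a < n: even a by hypothesis, odd a by two_mul_cmom_odd (NComm) and mom_mem (2 ≠ 0). a ≥ n: strong induction with Cayley-Hamilton as before (sum of the entries of X S^a).
-/

open Polynomial Matrix

namespace NoetherAn

variable {L : Type*} [Field L] [CharZero L] {n : ℕ}

omit [CharZero L] in
theorem NMem_coeff_top (M : Matrix (Fin n) (Fin n) L) : M.charpoly.coeff n = 1 := by
  have h := M.charpoly_monic.coeff_natDegree
  rwa [Matrix.charpoly_natDegree_eq_dim, Fintype.card_fin] at h

omit [CharZero L] in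
theorem NMem_CH (M : Matrix (Fin n) (Fin n) L) {a : ℕ} (ha : n ≤ a) :
    M ^ a = -∑ i ∈ Finset.range n, M.charpoly.coeff i • M ^ (a - n + i) := by
  have h := M.aeval_self_charpoly
  rw [Polynomial.aeval_eq_sum_range, Matrix.charpoly_natDegree_eq_dim, Fintype.card_fin,
    Finset.sum_range_succ, NMem_coeff_top, one_smul] at h
  have h1 : M ^ n = -∑ i ∈ Finset.range n, M.charpoly.coeff i • M ^ i :=
    eq_neg_of_add_eq_zero_right h
  have h2 : M ^ a = M ^ (a - n) * M ^ n := by
    rw [← pow_add, Nat.sub_add_cancel ha]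
  rw [h2, h1, mul_neg, Finset.mul_sum]
  congr 1
  refine Finset.sum_congr rfl fun i _ => ?_
  rw [mul_smul_comm, ← pow_add]

omit [CharZero L] in
theorem NMem_mom_rec (x : Fin n → L) {a : ℕ} (ha : n ≤ a) :
    mom x a = -∑ i ∈ Finset.range n, (cm x).charpoly.coeff i * mom x (a - n + i) := by
  unfold mom
  rw [NMem_CH (cm x) ha]
  simp only [Matrix.neg_apply, Matrix.sum_apply, Matrix.smul_apply, smul_eq_mul,
    Finset.sum_neg_distrib, Finset.mul_sum]
  congr 1
  rw [Finset.sum_comm]
  rw [Finset.sum_comm (s := Finset.range n)]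
  rw [Finset.sum_comm]
  refine Finset.sum_congr rfl fun i _ => ?_
  rw [Finset.sum_comm]

omit [CharZero L] in
theorem NMem_cmom_rec (x : Fin n → L) {a : ℕ} (ha : n ≤ a) :
    cmom x a = -∑ i ∈ Finset.range n, (cm x).charpoly.coeff i * cmom x (a - n + i) := by
  unfold cmom
  rw [NMem_CH (cm x) ha]
  simp only [Matrix.neg_apply, Matrix.sum_apply, Matrix.smul_apply, smul_eq_mul,
    mul_neg, Finset.sum_neg_distrib, Finset.mul_sum]
  congr 1
  rw [Finset.sum_comm]
  rw [Finset.sum_comm (s := Finset.range n)]
  rw [Finset.sum_comm]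
  refine Finset.sum_congr rfl fun i _ => ?_
  rw [Finset.sum_comm]
  refine Finset.sum_congr rfl fun j _ => ?_
  refine Finset.sum_congr rfl fun l _ => ?_
  ring

theorem mom_mem {x : Fin n → L} (hx : Function.Injective x) (K : Subfield L)
    (hK : ∀ j, (cm x).charpoly.coeff j ∈ K) (a : ℕ) : mom x a ∈ K := by
  induction a using Nat.strong_induction_on with
  | _ a ih =>
    rcases lt_or_ge a n with ha | ha
    · have h := newton (cm x) ha
      rw [Finset.sum_range_succ, Nat.sub_add_cancel ha.le, NMem_coeff_top, one_mul,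
        ← mom_eq_trace hx] at h
      have h1 : mom x a = ((n - a : ℕ) : L) * (cm x).charpoly.coeff (n - a) -
          ∑ b ∈ Finset.range a, (cm x).charpoly.coeff (n - a + b) * trace (cm x ^ b) :=
        eq_sub_of_add_eq' h
      rw [h1]
      refine sub_mem (mul_mem (natCast_mem K _) (hK _)) (sum_mem fun b hb => ?_)
      rw [← mom_eq_trace hx]
      exact mul_mem (hK _) (ih b (Finset.mem_range.1 hb))
    · rw [NMem_mom_rec x ha]
      refine neg_mem (sum_mem fun i hi => mul_mem (hK _) (ih _ ?_))
      have := Finset.mem_range.1 hi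
      omega

theorem cmom_mem {x : Fin n → L} (hx : Function.Injective x) (K : Subfield L)
    (hK : ∀ j, (cm x).charpoly.coeff j ∈ K)
    (hc : ∀ l, 2 * l < n → cmom x (2 * l) ∈ K) (a : ℕ) : cmom x a ∈ K := by
  induction a using Nat.strong_induction_on with
  | _ a ih =>
    rcases lt_or_ge a n with ha | ha
    · rcases Nat.even_or_odd' a with ⟨l, hl | hl⟩
      · rw [hl]
        exact hc l (by omega)
      · have h := two_mul_cmom_odd hx (l := a) ⟨l, hl⟩
        have h2 : (2 : L) ≠ 0 := two_ne_zero
        have h3 : cmom x a = (2 : L)⁻¹ * (2 * cmom x a) := by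
          rw [← mul_assoc, inv_mul_cancel₀ h2, one_mul]
        rw [h3, h]
        have h2m : (2 : L) ∈ K := by
          have := natCast_mem K 2
          simpa using this
        refine mul_mem (inv_mem h2m) (sub_mem (sum_mem fun b _ => mul_mem ?_ ?_)
          (mul_mem (natCast_mem K _) ?_))
        · exact mom_mem hx K hK _
        · exact mom_mem hx K hK _
        · exact mom_mem hx K hK _
    · rw [NMem_cmom_rec x ha]
      refine neg_mem (sum_mem fun i hi => mul_mem (hK _) (ih _ ?_))
      have := Finset.mem_range.1 hi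
      omega

end NoetherAn
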