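import Pool.Agent.H.MP_ffe2f0_al.NDefs
import Pool.Agent.H.MP_ffe2f0_al.NComm
import Pool.Agent.H.MP_ffe2f0_al.NMem
import Pool.Agent.H.MP_ffe2f0_al.NMain
import Pool.Agent.H.MP_ffe2f0_al.NDelta
import Pool.Agent.H.MP_ffe2f0_al.NSym
import Pool.Agent.H.MP_ffe2f0_al.NGeneric
import Pool.Agent.H.MP_ffe2f0_al.NAct

/-! Module NGalois: the invariants lie in the field of the generators.

PROOF. x = vr k n, K1 = adjoin k (range (gens x)), m = n/2 ≥ 1. coeff_prod_vr_mem: the coefficients π_j of charpoly (cm x) are in K1: π_j = 0 if n + j is odd (charpoly_coeff_odd) or j > n; π_n = 1; otherwise j = n%2 + 2i with i < m: for 1 ≤ i it is gens x i (index i < n), for i = 0 it is dlt(x)^2 by kry_det_sq (NDelta): dlt = det kry / hnk, det kry ≠ 0 (kry_vr_ne_zero) implies hnk ≠ 0, dlt^2 = π_{n%2}, and dlt x = gens x 0. cmom x (2l) for 2l < n is gens x (m + l) (m + l < n, and m + l ≥ m ≥ 1). So by mom_mem, cmom_mem (NMem) with K = K1.toSubfield all moments are in K1, and coeff_prod_mem (NMain) gives the claim.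
altInv_le: P = ∏ (X - C (x i)) = p.map (algebraMap K1 L) for some monic p : K1[X] (Polynomial.lifts / lifts_iff_coeff_lifts); p is separable (P is: x injective, vr_injective; separable_map), splits in L, and L is generated by the x i over K1 (adjoin_vr, NAct). So L is a splitting field of the separable p: IsGalois K1 L (IsGalois.of_separable_splitting_field). Let f ∈ altInv. It is enough that every τ : L ≃ₐ[K1] L fixes f (IsGalois.mem_bot_iff_fixed, or IntermediateField.fixedField_top..; f ∈ ⊥ means f in the range of algebraMap K1 L). τ (x i) is a root of P, so τ (x i) = x (π i) for a map π, injective as τ and x are, so a permutation. τ and permAct k n π agree on the x i, hence are equal as k-algebra maps (algHom_ext_vr). dlt x ∈ K1, so dlt x = τ (dlt x) = dlt (τ ∘ x) = dlt (x ∘ π) = sign(π) dlt x (dlt_map, dlt_comp), dlt x ≠ 0 (det kry ≠ 0, hnk ≠ 0 as above), char 0: sign π = 1, so π ∈ alternatingGroup and τ f = permAct π f = f.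
-/

open Polynomial Matrix

namespace NoetherAn

theorem charZero_ratField (k : Type*) [Field k] [CharZero k] (n : ℕ) :
    CharZero (RatField k n) :=
  charZero_of_injective_algebraMap (algebraMap k (RatField k n)).injective

theorem hnk_vr_ne_zero (k : Type*) [Field k] [CharZero k] (n : ℕ) : hnk (vr k n) ≠ 0 := by
  have := charZero_ratField k n
  intro h
  have h1 := kry_det_sq (vr_injective k n)
  rw [h] at h1
  have h2 : (kry (vr k n)).det ^ 2 = 0 := by rw [h1]; ring
  exact kry_vr_ne_zero k n (pow_eq_zero_iff (two_ne_zero) |>.1 h2)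

theorem dlt_vr_ne_zero (k : Type*) [Field k] [CharZero k] (n : ℕ) : dlt (vr k n) ≠ 0 :=
  div_ne_zero (kry_vr_ne_zero k n) (hnk_vr_ne_zero k n)

theorem dlt_vr_sq (k : Type*) [Field k] [CharZero k] (n : ℕ) :
    dlt (vr k n) ^ 2 = (cm (vr k n)).charpoly.coeff (n % 2) := by
  have := charZero_ratField k n
  have h1 := kry_det_sq (vr_injective k n)
  have h2 := hnk_vr_ne_zero k n
  rw [dlt, div_pow, h1]
  field_simp

theorem gens_zero {L : Type*} [Field L] {n : ℕ} (x : Fin n → L) (hn : 0 < n) :
    gens x ⟨0, hn⟩ = dlt x := by
  simp [gens]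

theorem dlt_vr_mem (k : Type*) [Field k] {n : ℕ} (hn : 2 ≤ n) :
    dlt (vr k n) ∈ IntermediateField.adjoin k (Set.range (gens (vr k n))) := by
  rw [← gens_zero (vr k n) (by omega)]
  exact IntermediateField.subset_adjoin _ _ (Set.mem_range_self _)

theorem charpoly_coeff_vr_mem (k : Type*) [Field k] [CharZero k] {n : ℕ} (hn : 2 ≤ n) (j : ℕ) :
    (cm (vr k n)).charpoly.coeff j ∈
      IntermediateField.adjoin k (Set.range (gens (vr k n))) := by
  have := charZero_ratField k n
  set K1 := IntermediateField.adjoin k (Set.range (gens (vr k n))) with hK1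
  have hdeg : (cm (vr k n)).charpoly.natDegree = n := by
    rw [Matrix.charpoly_natDegree_eq_dim]; simp
  rcases lt_trichotomy j n with hj | hj | hj
  · by_cases hodd : Odd (n + j)
    · rw [charpoly_coeff_odd _ hodd]; exact K1.zero_mem
    · rw [Nat.not_odd_iff_even] at hodd
      have hmod : j % 2 = n % 2 := by
        rw [Nat.even_add] at hodd
        rcases Nat.even_or_odd n with hn' | hn'
        · rw [Nat.even_iff.1 hn', Nat.even_iff.1 (hodd.1 hn')]
        · have : ¬ Even j := fun h => (Nat.not_even_iff_odd.2 hn') (hodd.2 h)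
          rw [Nat.odd_iff.1 hn', Nat.odd_iff.1 (Nat.not_even_iff_odd.1 this)]
      have hj2 : j = n % 2 + 2 * (j / 2) := by omega
      rcases Nat.eq_zero_or_pos (j / 2) with h0 | h0
      · have : j = n % 2 := by omega
        rw [this, ← dlt_vr_sq]
        exact pow_mem (dlt_vr_mem k hn) 2
      · have hlt : j / 2 < n / 2 := by omega
        have hg : gens (vr k n) ⟨j / 2, by omega⟩ = (cm (vr k n)).charpoly.coeff j := by
          simp only [gens]
          rw [if_neg (by omega), if_pos hlt, ← hj2]
        rw [← hg]
        exact IntermediateField.subset_adjoin _ _ (Set.mem_range_self _)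
  · have hm := Matrix.charpoly_monic (cm (vr k n))
    rw [Polynomial.Monic, Polynomial.leadingCoeff, hdeg] at hm
    rw [hj, hm]
    exact K1.one_mem
  · rw [Polynomial.coeff_eq_zero_of_natDegree_lt (by rw [hdeg]; exact hj)]
    exact K1.zero_mem

theorem cmom_vr_mem (k : Type*) [Field k] {n : ℕ} (hn : 2 ≤ n) (l : ℕ)
    (hl : 2 * l < n) : cmom (vr k n) (2 * l) ∈
      IntermediateField.adjoin k (Set.range (gens (vr k n))) := by
  have hg : gens (vr k n) ⟨n / 2 + l, by omega⟩ = cmom (vr k n) (2 * l) := by
    simp only [gens]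
    rw [if_neg (by omega), if_neg (by omega)]
    congr 2
    omega
  rw [← hg]
  exact IntermediateField.subset_adjoin _ _ (Set.mem_range_self _)

/-- all coefficients of `∏ (X - x_i)` lie in the field generated by `gens` -/
theorem coeff_prod_vr_mem (k : Type*) [Field k] [CharZero k] {n : ℕ} (hn : 2 ≤ n) (j : ℕ) :
    (∏ i, (X - C (vr k n i))).coeff j ∈
      IntermediateField.adjoin k (Set.range (gens (vr k n))) := by
  have := charZero_ratField k n
  set K1 := IntermediateField.adjoin k (Set.range (gens (vr k n))) with hK1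
  have hx := vr_injective k n
  have hK : ∀ j, (cm (vr k n)).charpoly.coeff j ∈ K1.toSubfield := fun j =>
    charpoly_coeff_vr_mem k hn j
  have hc : ∀ l, 2 * l < n → cmom (vr k n) (2 * l) ∈ K1.toSubfield := fun l hl =>
    cmom_vr_mem k hn l hl
  exact coeff_prod_mem hx (kry_vr_ne_zero k n) K1.toSubfield (mom_mem hx _ hK)
    (cmom_mem hx _ hK hc) j

theorem altInv_le (k : Type*) [Field k] [CharZero k] {n : ℕ} (hn : 2 ≤ n) :
    altInv k n ≤ IntermediateField.adjoin k (Set.range (gens (vr k n))) := by
  classical
  have hchar := charZero_ratField k n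
  set K1 := IntermediateField.adjoin k (Set.range (gens (vr k n))) with hK1
  have hx := vr_injective k n
  set P : (RatField k n)[X] := ∏ i, (X - C (vr k n i)) with hP
  -- a model of `P` over `K1`
  obtain ⟨p, hp⟩ : ∃ p : K1[X], p.map (algebraMap K1 (RatField k n)) = P := by
    rw [← Polynomial.mem_lifts, Polynomial.lifts_iff_coeff_lifts]
    intro j
    exact ⟨⟨P.coeff j, coeff_prod_vr_mem k hn j⟩, rfl⟩
  have hPsep : P.Separable := Polynomial.separable_prod_X_sub_C_iff.2 hx
  have hpsep : p.Separable := by
    rw [← Polynomial.separable_map (algebraMap K1 (RatField k n)), hp]; exact hPsep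
  have hP0 : P ≠ 0 := hPsep.ne_zero
  have hp0 : p ≠ 0 := by
    intro h; rw [h, Polynomial.map_zero] at hp; exact hP0 hp.symm
  have hroot : ∀ i, vr k n i ∈ p.rootSet (RatField k n) := by
    intro i
    rw [Polynomial.mem_rootSet]
    refine ⟨hp0, ?_⟩
    rw [Polynomial.aeval_def, ← Polynomial.eval_map, hp, hP, Polynomial.eval_prod]
    exact Finset.prod_eq_zero (Finset.mem_univ i) (by simp)
  have hsf : p.IsSplittingField K1 (RatField k n) := by
    rw [isSplittingField_iff_intermediateField]
    constructor
    · rw [hp, hP]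
      exact Polynomial.Splits.prod fun i _ => Polynomial.Splits.X_sub_C _
    · rw [eq_top_iff]
      intro y _
      have h1 : IntermediateField.adjoin k (Set.range (vr k n)) ≤
          (IntermediateField.adjoin K1 (p.rootSet (RatField k n))).restrictScalars k := by
        rw [IntermediateField.adjoin_le_iff]
        rintro _ ⟨i, rfl⟩
        have h2 : vr k n i ∈ IntermediateField.adjoin K1 (p.rootSet (RatField k n)) :=
          IntermediateField.subset_adjoin K1 (p.rootSet (RatField k n)) (hroot i)
        rw [SetLike.mem_coe, IntermediateField.mem_restrictScalars]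
        exact h2
      rw [adjoin_vr] at h1
      exact h1 (IntermediateField.mem_top (F := k) (E := RatField k n) (x := y))
  have : FiniteDimensional K1 (RatField k n) :=
    Polynomial.IsSplittingField.finiteDimensional (RatField k n) p
  have : IsGalois K1 (RatField k n) := IsGalois.of_separable_splitting_field hpsep
  intro f hf
  have key : f ∈ Set.range (algebraMap K1 (RatField k n)) := by
    rw [IsGalois.mem_range_algebraMap_iff_fixed]
    intro τ
    -- the permutation of the roots
    have hex : ∀ i, ∃ j, τ (vr k n i) = vr k n j := by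
      intro i
      have h1 : Polynomial.aeval (τ (vr k n i)) p = 0 := by
        have h2 := (Polynomial.mem_rootSet.1 (hroot i)).2
        have h3 := Polynomial.aeval_algHom_apply (τ : RatField k n →ₐ[K1] RatField k n)
          (vr k n i) p
        rw [h2, map_zero] at h3
        exact h3
      rw [Polynomial.aeval_def, ← Polynomial.eval_map, hp, hP, Polynomial.eval_prod,
        Finset.prod_eq_zero_iff] at h1
      obtain ⟨j, -, hj⟩ := h1
      refine ⟨j, ?_⟩
      rw [Polynomial.eval_sub, Polynomial.eval_X, Polynomial.eval_C, sub_eq_zero] at hj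
      exact hj
    choose π hπ using hex
    have hπi : Function.Injective π := by
      intro i j hij
      apply hx
      apply τ.injective
      rw [hπ i, hπ j, hij]
    set σ : Equiv.Perm (Fin n) := Equiv.ofBijective π (Finite.injective_iff_bijective.1 hπi)
      with hσ
    have hσπ : ∀ i, σ i = π i := fun i => rfl
    have heq : (τ.restrictScalars k : RatField k n →ₐ[k] RatField k n)
        = (permAct k n σ : RatField k n →ₐ[k] RatField k n) := by
      apply algHom_ext_vr
      intro i
      have h1 : permAct k n σ (vr k n i) = vr k n (σ i) := permAct_vr k n σ i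
      have h2 : τ (vr k n i) = vr k n (π i) := hπ i
      calc (τ.restrictScalars k : RatField k n →ₐ[k] RatField k n) (vr k n i)
          = τ (vr k n i) := rfl
        _ = permAct k n σ (vr k n i) := by rw [h1, h2, hσπ]
        _ = _ := rfl
    have heq' : ∀ y, τ y = permAct k n σ y := fun y => DFunLike.congr_fun heq y
    -- the sign
    have hd := dlt_vr_mem k hn
    have hτd : τ (dlt (vr k n)) = dlt (vr k n) :=
      τ.commutes (⟨dlt (vr k n), hd⟩ : K1)
    have hmap := dlt_map (τ : RatField k n →+* RatField k n) (vr k n)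
    have hcomp : ((τ : RatField k n →+* RatField k n) : RatField k n → RatField k n) ∘ (vr k n)
        = vr k n ∘ σ := funext fun i => hπ i
    rw [hcomp, dlt_comp] at hmap
    have hmap' : (((Equiv.Perm.sign σ : ℤˣ) : ℤ) : RatField k n) * dlt (vr k n)
        = dlt (vr k n) := hmap.trans hτd
    have hd0 := dlt_vr_ne_zero k n
    have hsign : Equiv.Perm.sign σ = 1 := by
      rcases Int.units_eq_one_or (Equiv.Perm.sign σ) with h | h
      · exact h
      · exfalso
        rw [h] at hmap'
        have h3 : (2 : RatField k n) * dlt (vr k n) = 0 := by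
          have h4 : (((-1 : ℤˣ) : ℤ) : RatField k n) = -1 := by simp
          rw [h4] at hmap'
          linear_combination -hmap'
        rcases mul_eq_zero.1 h3 with h4 | h4
        · exact two_ne_zero h4
        · exact hd0 h4
    rw [heq' f]
    exact hf σ (Equiv.Perm.mem_alternatingGroup.2 hsign)
  obtain ⟨y, hy⟩ := key
  rw [← hy]
  exact y.2

end NoetherAn
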