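import Mathlib

/-! Module NDefs: definitions.
-/

open Polynomial Matrix

namespace NoetherAn

section CM

variable {L : Type*} [Field L] {n : ℕ}

/-- the Calogero–Moser matrix: entries `1 / (x i - x j)`, and `0⁻¹ = 0` on the diagonal -/
def cm (x : Fin n → L) : Matrix (Fin n) (Fin n) L := Matrix.of fun i j => (x i - x j)⁻¹

/-- `1ᵀ S^a 1` for `S = cm x` -/
def mom (x : Fin n → L) (a : ℕ) : L := ∑ i, ∑ j, (cm x ^ a) i j

/-- `1ᵀ X S^a 1` for `S = cm x`, `X = diagonal x` -/
def cmom (x : Fin n → L) (a : ℕ) : L := ∑ i, ∑ j, x i * (cm x ^ a) i j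

/-- the Krylov matrix: its columns are the vectors `S^k 1` -/
def kry (x : Fin n → L) : Matrix (Fin n) (Fin n) L :=
  Matrix.of fun i k => ∑ j, (cm x ^ (k : ℕ)) i j

/-- determinant of a Hankel matrix of moments -/
def hnk (x : Fin n → L) : L :=
  Matrix.det (Matrix.of fun j k : Fin (n / 2) => mom x (2 * ((j : ℕ) + k) + 2 * (n % 2)))

/-- the square root of the last coefficient of the characteristic polynomial of `cm x` -/
def dlt (x : Fin n → L) : L := (kry x).det / hnk x

/-- the generators of the field of invariants of the alternating group (`2 ≤ n`) -/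
noncomputable def gens (x : Fin n → L) : Fin n → L := fun i =>
  if (i : ℕ) = 0 then dlt x
  else if (i : ℕ) < n / 2 then (cm x).charpoly.coeff (n % 2 + 2 * (i : ℕ))
  else cmom x (2 * ((i : ℕ) - n / 2))

end CM

section RatField

variable (k : Type*) [Field k] (n : ℕ)

/-- the field `k(x_1, ..., x_n)` of rational functions -/
abbrev RatField : Type _ := FractionRing (MvPolynomial (Fin n) k)

/-- the variables `x_1, ..., x_n` -/
noncomputable def vr : Fin n → RatField k n := fun i =>
  algebraMap (MvPolynomial (Fin n) k) (RatField k n) (MvPolynomial.X i)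

/-- the automorphism of `k(x_1, ..., x_n)` over `k` with `x_i ↦ x_{σ(i)}`, i.e.
`f(x_1, ..., x_n) ↦ f(x_{σ(1)}, ..., x_{σ(n)})` -/
noncomputable def permAct (σ : Equiv.Perm (Fin n)) : RatField k n ≃ₐ[k] RatField k n :=
  IsFractionRing.algEquivOfAlgEquiv (MvPolynomial.renameEquiv k σ)

/-- the field of the rational functions fixed by all even permutations of the variables -/
noncomputable def altInv : IntermediateField k (RatField k n) where
  carrier := {f | ∀ σ ∈ alternatingGroup (Fin n), permAct k n σ f = f}
  mul_mem' := fun ha hb σ hσ => by rw [map_mul, ha σ hσ, hb σ hσ]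
  add_mem' := fun ha hb σ hσ => by rw [map_add, ha σ hσ, hb σ hσ]
  algebraMap_mem' := fun r σ _ => (permAct k n σ).commutes r
  inv_mem' := fun a ha σ hσ => by rw [map_inv₀, ha σ hσ]

end RatField

end NoetherAn
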