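import Pool.Agent.H.MP_ffe2f0_al.NDefs

/-! Module NIndep: generators are algebraically independent.

PROOF. The variables form a transcendence basis, so the transcendence degree is n; `n` elements
over which the field is algebraic then form a transcendence basis
(Algebra.IsAlgebraic.isTranscendenceBasis_of_lift_le_trdeg_of_finite).
-/

open Polynomial Matrix

namespace NoetherAn

theorem vr_isTranscendenceBasis_aux (k : Type*) [Field k] (n : ℕ) :
    IsTranscendenceBasis k (vr k n) := by
  have : Algebra.IsAlgebraic (MvPolynomial (Fin n) k) (RatField k n) :=
    IsLocalization.isAlgebraic _ (nonZeroDivisors (MvPolynomial (Fin n) k))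
  have h := (IsTranscendenceBasis.mvPolynomial (Fin n) k).algebraMap_comp
    (A := RatField k n)
  exact h

/-- `n` elements over which `k(x_1, ..., x_n)` is algebraic are algebraically independent -/
theorem algebraicIndependent_of_algebraic (k : Type*) [Field k] (n : ℕ)
    (y : Fin n → RatField k n)
    (h : Algebra.IsAlgebraic (IntermediateField.adjoin k (Set.range y)) (RatField k n)) :
    AlgebraicIndependent k y := by
  have h1 : Algebra.IsAlgebraic (Algebra.adjoin k (Set.range y)) (RatField k n) :=
    IntermediateField.isAlgebraic_adjoin_iff_top.mp h
  have h2 := (vr_isTranscendenceBasis_aux k n).lift_cardinalMk_eq_trdeg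
  exact (Algebra.IsAlgebraic.isTranscendenceBasis_of_lift_le_trdeg_of_finite k y h2.le).1

end NoetherAn
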