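import Pool.Agent.H.MP_ffe2f0_al.NDefs
import Pool.Agent.H.MP_ffe2f0_al.NSym
import Pool.Agent.H.MP_ffe2f0_al.NAct

/-! Module NInv: the generators are invariant. -/

open Polynomial Matrix

namespace NoetherAn

theorem gens_mem_altInv (k : Type*) [Field k] (n : ℕ) (i : Fin n) :
    gens (vr k n) i ∈ altInv k n := by
  intro σ hσ
  have h1 := gens_map ((permAct k n σ : RatField k n ≃ₐ[k] RatField k n) :
    RatField k n →+* RatField k n) (vr k n) i
  have h2 : (((permAct k n σ : RatField k n ≃ₐ[k] RatField k n) :
    RatField k n →+* RatField k n) : RatField k n → RatField k n) ∘ vr k n = vr k n ∘ σ := by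
    funext j
    exact permAct_vr k n σ j
  rw [h2, gens_comp _ σ (Equiv.Perm.mem_alternatingGroup.1 hσ)] at h1
  exact h1.symm

end NoetherAn
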