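import Pool.Agent.H.MP_ffe2f0_al.NDefs
import Pool.Agent.H.MP_ffe2f0_al.NAct
import Pool.Agent.H.MP_ffe2f0_al.NInv
import Pool.Agent.H.MP_ffe2f0_al.NGalois
import Pool.Agent.H.MP_ffe2f0_al.NIndep

/-! Module NFinal: Noether problem for the alternating groups. -/

open Polynomial Matrix

namespace NoetherAn

/-- `L` is algebraic over the field of the generators -/
theorem isAlgebraic_gens (k : Type*) [Field k] [CharZero k] {n : ℕ} (hn : 2 ≤ n) :
    Algebra.IsAlgebraic (IntermediateField.adjoin k (Set.range (gens (vr k n))))
      (RatField k n) := by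
  classical
  set K1 := IntermediateField.adjoin k (Set.range (gens (vr k n))) with hK1
  set P : (RatField k n)[X] := ∏ i, (X - C (vr k n i)) with hP
  have hPm : P.Monic := monic_prod_of_monic _ _ fun i _ => monic_X_sub_C _
  have hlift : P ∈ Polynomial.lifts (algebraMap K1 (RatField k n)) := by
    rw [Polynomial.lifts_iff_coeff_lifts]
    intro j
    exact ⟨⟨P.coeff j, coeff_prod_vr_mem k hn j⟩, rfl⟩
  obtain ⟨p, hp, -, hpm⟩ := Polynomial.lifts_and_degree_eq_and_monic hlift hPm
  have hint : ∀ i, IsIntegral K1 (vr k n i) := by
    intro i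
    refine ⟨p, hpm, ?_⟩
    rw [← eval_map, hp, hP, eval_prod]
    exact Finset.prod_eq_zero (Finset.mem_univ i) (by simp)
  have htop : IntermediateField.adjoin K1 (Set.range (vr k n)) = ⊤ := by
    rw [eq_top_iff]
    intro f _
    have h1 : f ∈ IntermediateField.adjoin k (Set.range (vr k n)) := by
      rw [adjoin_vr]
      exact IntermediateField.mem_top
    have h2 : IntermediateField.adjoin k (Set.range (vr k n)) ≤
        (IntermediateField.adjoin K1 (Set.range (vr k n))).restrictScalars k := by
      rw [IntermediateField.adjoin_le_iff]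
      rintro _ ⟨i, rfl⟩
      exact IntermediateField.subset_adjoin K1 _ ⟨i, rfl⟩
    exact h2 h1
  have h3 : Algebra.IsAlgebraic K1 (IntermediateField.adjoin K1 (Set.range (vr k n))) := by
    apply IntermediateField.isAlgebraic_adjoin
    rintro _ ⟨i, rfl⟩
    exact hint i
  rw [htop] at h3
  constructor
  intro f
  have h4 := h3.isAlgebraic (⟨f, IntermediateField.mem_top⟩ : (⊤ : IntermediateField K1 (RatField k n)))
  exact (isAlgebraic_algebraMap_iff (algebraMap (⊤ : IntermediateField K1 (RatField k n))
    (RatField k n)).injective).2 h4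

/-- the conclusion from generators in the large field -/
theorem noether_of {k : Type*} [Field k] {n : ℕ} (y : Fin n → RatField k n)
    (hy : ∀ i, y i ∈ altInv k n) (hle : altInv k n ≤ IntermediateField.adjoin k (Set.range y))
    (hind : AlgebraicIndependent k y) :
    ∃ y : Fin n → altInv k n, AlgebraicIndependent k y ∧
      IntermediateField.adjoin k (Set.range y) = ⊤ := by
  refine ⟨fun i => ⟨y i, hy i⟩, ?_, ?_⟩
  · exact AlgebraicIndependent.of_comp (altInv k n).val hind
  · rw [eq_top_iff]
    intro f _
    have h1 : (f : RatField k n) ∈ IntermediateField.adjoin k (Set.range y) := hle f.2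
    have h2 : (IntermediateField.adjoin k (Set.range fun i => (⟨y i, hy i⟩ : altInv k n))).map
        (altInv k n).val = IntermediateField.adjoin k (Set.range y) := by
      rw [IntermediateField.adjoin_map]
      congr 1
      rw [← Set.range_comp]
      rfl
    rw [← h2, IntermediateField.mem_map] at h1
    obtain ⟨g, hg, hgf⟩ := h1
    have h3 : g = f := Subtype.ext hgf
    rwa [h3] at hg

theorem noether (k : Type*) [Field k] [CharZero k] (n : ℕ) :
    ∃ y : Fin n → altInv k n, AlgebraicIndependent k y ∧
      IntermediateField.adjoin k (Set.range y) = ⊤ := by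
  rcases Nat.lt_or_ge n 2 with hn | hn
  · have hs : Subsingleton (Fin n) := by
      rw [Fin.subsingleton_iff_le_one]
      omega
    refine noether_of (vr k n) ?_ ?_ (vr_isTranscendenceBasis k n).1
    · intro i σ _
      rw [permAct_vr, Subsingleton.elim (σ i) i]
    · rw [adjoin_vr]
      exact le_top
  · exact noether_of _ (gens_mem_altInv k n) (altInv_le k hn)
      (algebraicIndependent_of_algebraic k n _ (isAlgebraic_gens k hn))

end NoetherAn
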